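import Mathlib

/-! Choosing an independent set for every colour, by the method of pessimistic estimators. -/

set_option autoImplicit false
set_option linter.unusedSectionVars false

namespace Pool.Agent.U396.Col

open Finset

variable {V : Type} [DecidableEq V]

theorem colours (T : Finset V) (Ind : Finset V → Prop) (p : V → ℝ) (η : ℝ) (hη : 0 ≤ η)
    (hη1 : η ≤ 1) (hp : ∀ v ∈ T, η * p v < 1)
    (hw : ∀ z : V → ℝ, (∀ v, 0 ≤ z v) → (∀ v, v ∉ T → z v = 0) →
      ∃ I ⊆ T, Ind I ∧ ∑ v ∈ T, z v * p v ≤ ∑ v ∈ I, z v)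
    (L : V → Finset ℕ) (C : Finset ℕ) :
    ∃ I : ℕ → Finset V, (∀ c, I c ⊆ T) ∧ (∀ c ∈ C, Ind (I c)) ∧
      ∑ v ∈ T, (1 - η) ^ (C.filter (fun c => c ∈ L v ∧ v ∈ I c)).card *
        ((1 - η * p v)⁻¹) ^ (C.filter (fun c => c ∈ L v)).card ≤ T.card := by
  classical
  induction C using Finset.induction_on with
  | empty =>
    refine ⟨fun _ => ∅, fun c => Finset.empty_subset _, fun c hc => absurd hc (by simp), ?_⟩
    simp
  | insert c C hc ih =>
    obtain ⟨I, hIT, hInd, hI⟩ := ih
    obtain ⟨q, hq⟩ : ∃ q : V → ℝ, ∀ v, q v = (1 - η * p v)⁻¹ := ⟨_, fun _ => rfl⟩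
    obtain ⟨F, hF⟩ : ∃ F : V → ℝ, ∀ v, F v =
        (1 - η) ^ (C.filter (fun c => c ∈ L v ∧ v ∈ I c)).card *
          (q v) ^ (C.filter (fun c => c ∈ L v)).card := ⟨_, fun _ => rfl⟩
    have hqpos : ∀ v ∈ T, 0 < q v := by
      intro v hv
      rw [hq]
      exact inv_pos.2 (by linarith [hp v hv])
    have hF0 : ∀ v ∈ T, 0 ≤ F v := by
      intro v hv
      rw [hF]
      exact mul_nonneg (pow_nonneg (by linarith) _) (pow_nonneg (hqpos v hv).le _)
    obtain ⟨z, hz⟩ : ∃ z : V → ℝ, ∀ v, z v = if v ∈ T ∧ c ∈ L v then F v * q v else 0 :=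
      ⟨_, fun _ => rfl⟩
    obtain ⟨J, hJT, hJ, hJz⟩ := hw z (by
      intro v
      rw [hz]
      split_ifs with h
      · exact mul_nonneg (hF0 v h.1) (hqpos v h.1).le
      · exact le_rfl) (by
      intro v hv
      rw [hz, if_neg (fun h => hv h.1)])
    refine ⟨Function.update I c J, ?_, ?_, ?_⟩
    · intro c'
      by_cases h : c' = c
      · subst h; rw [Function.update_self]; exact hJT
      · rw [Function.update_of_ne h]; exact hIT c'
    · intro c' hc'
      by_cases h : c' = c
      · subst h; rw [Function.update_self]; exact hJ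
      · rw [Function.update_of_ne h]
        exact hInd c' (Finset.mem_of_mem_insert_of_ne hc' h)
    · have hold : ∀ v, (C.filter (fun c' => c' ∈ L v ∧ v ∈ Function.update I c J c')) =
          C.filter (fun c' => c' ∈ L v ∧ v ∈ I c') := by
        intro v
        apply Finset.filter_congr
        intro c' hc'
        have : c' ≠ c := fun h => hc (h ▸ hc')
        rw [Function.update_of_ne this]
      have hterm : ∀ v ∈ T, (1 - η) ^ ((insert c C).filter
          (fun c' => c' ∈ L v ∧ v ∈ Function.update I c J c')).card *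
          ((1 - η * p v)⁻¹) ^ ((insert c C).filter (fun c => c ∈ L v)).card =
          F v + (η * (z v * p v) - (if v ∈ J then η * z v else 0)) := by
        intro v hv
        rw [← hq, hF, Finset.filter_insert, Finset.filter_insert, Function.update_self, hold]
        have hqv := hqpos v hv
        have hq1 : q v * (1 - η * p v) = 1 := by
          rw [hq]
          exact inv_mul_cancel₀ (by linarith [hp v hv])
        by_cases hcL : c ∈ L v
        · have hz' : z v = (1 - η) ^ (C.filter (fun c => c ∈ L v ∧ v ∈ I c)).card *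
              (q v) ^ (C.filter (fun c => c ∈ L v)).card * q v := by
            rw [hz, if_pos ⟨hv, hcL⟩, hF]
          have hn1 : c ∉ C.filter (fun c => c ∈ L v) := fun h => hc (mem_filter.1 h).1
          have hn2 : c ∉ C.filter (fun c => c ∈ L v ∧ v ∈ I c) := fun h => hc (mem_filter.1 h).1
          rw [if_pos hcL, Finset.card_insert_of_notMem hn1, pow_succ]
          by_cases hvJ : v ∈ J
          · rw [if_pos ⟨hcL, hvJ⟩, if_pos hvJ, Finset.card_insert_of_notMem hn2, pow_succ, hz']
            linear_combination ((1 - η) ^ (C.filter (fun c => c ∈ L v ∧ v ∈ I c)).card *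
              (q v) ^ (C.filter (fun c => c ∈ L v)).card) * hq1
          · rw [if_neg (fun h => hvJ h.2), if_neg hvJ, hz']
            linear_combination ((1 - η) ^ (C.filter (fun c => c ∈ L v ∧ v ∈ I c)).card *
              (q v) ^ (C.filter (fun c => c ∈ L v)).card) * hq1
        · have hz' : z v = 0 := by rw [hz, if_neg (fun h => hcL h.2)]
          rw [if_neg hcL, if_neg (fun h => hcL h.1), hz']
          simp
      rw [Finset.sum_congr rfl hterm, Finset.sum_add_distrib, Finset.sum_sub_distrib,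
        ← Finset.mul_sum, Finset.sum_ite_mem, Finset.inter_eq_right.2 hJT, ← Finset.mul_sum]
      have h1 : ∑ v ∈ T, F v ≤ T.card := by
        refine le_trans (le_of_eq ?_) hI
        refine Finset.sum_congr rfl fun v _ => ?_
        rw [hF, hq]
      have h2 : η * ∑ v ∈ T, z v * p v ≤ η * ∑ v ∈ J, z v := mul_le_mul_of_nonneg_left hJz hη
      linarith

/-- enough colours -/
theorem counts (T : Finset V) (Ind : Finset V → Prop) (p : V → ℝ) (η : ℝ) (hη : 0 ≤ η)
    (hη1 : η ≤ 1) (hp : ∀ v ∈ T, η * p v < 1)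
    (hw : ∀ z : V → ℝ, (∀ v, 0 ≤ z v) → (∀ v, v ∉ T → z v = 0) →
      ∃ I ⊆ T, Ind I ∧ ∑ v ∈ T, z v * p v ≤ ∑ v ∈ I, z v)
    (L : V → Finset ℕ) :
    ∃ I : ℕ → Finset V, (∀ c ∈ T.biUnion L, Ind (I c)) ∧
      ∀ v ∈ T, (1 - η) ^ ((L v).filter (fun c => v ∈ I c)).card ≤
        T.card * (1 - η * p v) ^ (L v).card := by
  obtain ⟨I, -, h2, h3⟩ := colours T Ind p η hη hη1 hp hw L (T.biUnion L)
  refine ⟨I, h2, ?_⟩
  intro v hv
  have h4 : (T.biUnion L).filter (fun c => c ∈ L v) = L v := by
    rw [Finset.filter_mem_eq_inter, Finset.inter_eq_right]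
    exact Finset.subset_biUnion_of_mem L hv
  have h5 : (T.biUnion L).filter (fun c => c ∈ L v ∧ v ∈ I c) =
      (L v).filter (fun c => v ∈ I c) := by
    rw [← Finset.filter_filter, h4]
  have h6 := (Finset.single_le_sum (f := fun v =>
    (1 - η) ^ ((T.biUnion L).filter (fun c => c ∈ L v ∧ v ∈ I c)).card *
        ((1 - η * p v)⁻¹) ^ ((T.biUnion L).filter (fun c => c ∈ L v)).card) (by
      intro u hu
      refine mul_nonneg (pow_nonneg (by linarith) _) (pow_nonneg ?_ _)
      exact inv_nonneg.2 (by linarith [hp u hu])) hv).trans h3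
  simp only [h4, h5] at h6
  have h7 : 0 < 1 - η * p v := by linarith [hp v hv]
  rw [inv_pow, ← div_eq_mul_inv, div_le_iff₀ (pow_pos h7 _)] at h6
  exact h6

end Pool.Agent.U396.Col
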