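import Pool.Agent.H249R2.PM.Round

/-! The `T`-join polyhedron (Edmonds and Johnson), in the form: a nonnegative vector that has value
at least one on every `T`-odd cut can be rounded to a `T`-join of no larger cost. Deduced from
Edmonds' perfect matching theorem by blowing up the vertices. -/

set_option autoImplicit false
set_option linter.unusedSectionVars false

namespace Pool.Agent.U396.TJ

open Finset Pool.Agent.H249R2.PM

variable {V E : Type} [Fintype V] [DecidableEq V] [Fintype E] [DecidableEq E]

/-- sizes of the clusters -/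
def kk (T : Finset V) (N : ℕ) (v : V) : ℕ := if v ∈ T then 2 * N + 1 else 2 * N

/-- nodes of the blow-up -/
abbrev Nd (T : Finset V) (N : ℕ) := Σ v : V, Fin (kk T N v)
/-- edges of the blow-up -/
abbrev Ge (a b : E → V) (T : Finset V) (N : ℕ) :=
  (Σ e : E, Fin (kk T N (a e)) × Fin (kk T N (b e))) ⊕ (Σ v : V, Fin (kk T N v) × Fin (kk T N v))

/-- first end -/
def ga (a b : E → V) (T : Finset V) (N : ℕ) : Ge a b T N → Nd T N
  | Sum.inl g => ⟨a g.1, g.2.1⟩
  | Sum.inr g => ⟨g.1, g.2.1⟩
/-- second end -/
def gb (a b : E → V) (T : Finset V) (N : ℕ) : Ge a b T N → Nd T N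
  | Sum.inl g => ⟨b g.1, g.2.2⟩
  | Sum.inr g => ⟨g.1, g.2.2⟩

/-- weights of the blow-up -/
noncomputable def gy (a b : E → V) (x : E → ℝ) (T : Finset V) (N : ℕ) : Ge a b T N → ℝ
  | Sum.inl g => x g.1 / (kk T N (a g.1) * kk T N (b g.1))
  | Sum.inr g => (1 - cut a b x {g.1} / kk T N g.1) / (kk T N g.1 - 1) / 2

theorem sum_xor {I J : Type} [Fintype I] [Fintype J] [DecidableEq I] [DecidableEq J] (P : I → Prop) (Q : J → Prop)
    [DecidablePred P] [DecidablePred Q] (c : ℝ) :
    ∑ p : I × J, (if ¬ (P p.1 ↔ Q p.2) then c else 0) =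
      c * (((univ.filter P).card : ℝ) * (Fintype.card J - (univ.filter Q).card) +
        (Fintype.card I - (univ.filter P).card) * (univ.filter Q).card) := by
  have h1 : ∀ p : I × J, (if ¬ (P p.1 ↔ Q p.2) then c else 0) =
      c * ((if P p.1 then 1 else 0) * (1 - if Q p.2 then 1 else 0) +
        (1 - if P p.1 then 1 else 0) * (if Q p.2 then 1 else 0)) := by
    intro p
    by_cases hp : P p.1 <;> by_cases hq : Q p.2 <;> simp [hp, hq]
  rw [Finset.sum_congr rfl (fun p _ => h1 p), ← Finset.mul_sum, Finset.sum_add_distrib]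
  have h2 : ∑ p : I × J, ((if P p.1 then (1 : ℝ) else 0) * (1 - if Q p.2 then 1 else 0)) =
      (∑ i : I, (if P i then (1 : ℝ) else 0)) * ∑ j : J, (1 - if Q j then (1 : ℝ) else 0) := by
    rw [Finset.sum_mul_sum, ← Finset.univ_product_univ, Finset.sum_product]
  have h3 : ∑ p : I × J, ((1 - if P p.1 then (1 : ℝ) else 0) * (if Q p.2 then 1 else 0)) =
      (∑ i : I, (1 - if P i then (1 : ℝ) else 0)) * ∑ j : J, (if Q j then (1 : ℝ) else 0) := by
    rw [Finset.sum_mul_sum, ← Finset.univ_product_univ, Finset.sum_product]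
  rw [h2, h3]
  simp only [Finset.sum_sub_distrib, Finset.sum_boole, Finset.sum_const, nsmul_eq_mul, mul_one,
    Finset.card_univ]

/-- number of nodes of a cluster in `S` -/
def sz {T : Finset V} {N : ℕ} (S : Finset (Nd T N)) (v : V) : ℕ :=
  (univ.filter (fun i : Fin (kk T N v) => (⟨v, i⟩ : Nd T N) ∈ S)).card

theorem cut_formula (a b : E → V) (x : E → ℝ) (T : Finset V) (N : ℕ) (S : Finset (Nd T N)) :
    cut (ga a b T N) (gb a b T N) (gy a b x T N) S =
      ∑ e, x e / (kk T N (a e) * kk T N (b e)) *
        ((sz S (a e) : ℝ) * (kk T N (b e) - sz S (b e)) +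
          (kk T N (a e) - sz S (a e)) * sz S (b e)) +
      ∑ v, (1 - cut a b x {v} / kk T N v) / (kk T N v - 1) * ((sz S v : ℝ) * (kk T N v - sz S v)) := by
  rw [cut_eq_ite, Fintype.sum_sum_type]
  congr 1
  · rw [Fintype.sum_sigma]
    refine Finset.sum_congr rfl fun e _ => ?_
    have h := sum_xor (fun i : Fin (kk T N (a e)) => (⟨a e, i⟩ : Nd T N) ∈ S)
      (fun j : Fin (kk T N (b e)) => (⟨b e, j⟩ : Nd T N) ∈ S)
      (x e / (kk T N (a e) * kk T N (b e)))
    simp only [Fintype.card_fin] at h
    exact h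
  · rw [Fintype.sum_sigma]
    refine Finset.sum_congr rfl fun v _ => ?_
    have h := sum_xor (fun i : Fin (kk T N v) => (⟨v, i⟩ : Nd T N) ∈ S)
      (fun j : Fin (kk T N v) => (⟨v, j⟩ : Nd T N) ∈ S)
      ((1 - cut a b x {v} / kk T N v) / (kk T N v - 1) / 2)
    simp only [Fintype.card_fin] at h
    refine Eq.trans h ?_
    unfold sz
    ring

theorem card_eq_sum_sz {T : Finset V} {N : ℕ} (S : Finset (Nd T N)) :
    S.card = ∑ v, sz S v := by
  have h1 : S.card = ∑ g : Nd T N, if g ∈ S then 1 else 0 := by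
    rw [Finset.sum_ite_mem, Finset.univ_inter, Finset.card_eq_sum_ones]
  rw [h1, Fintype.sum_sigma]
  refine Finset.sum_congr rfl fun v _ => ?_
  unfold sz
  rw [Finset.card_filter]

theorem sz_le {T : Finset V} {N : ℕ} (S : Finset (Nd T N)) (v : V) : sz S v ≤ kk T N v := by
  unfold sz
  refine (Finset.card_filter_le _ _).trans ?_
  simp

theorem kk_ge (T : Finset V) (N : ℕ) (v : V) : 2 * N ≤ kk T N v := by
  unfold kk; split_ifs <;> omega

theorem kk_odd (T : Finset V) (N : ℕ) (v : V) : Odd (kk T N v) ↔ v ∈ T := by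
  unfold kk
  split_ifs with h
  · simp [h]
  · simp [h]

theorem cut_nonneg {a b : E → V} {x : E → ℝ} (hx : ∀ e, 0 ≤ x e) (S : Finset V) :
    0 ≤ cut a b x S := by
  unfold cut
  exact Finset.sum_nonneg fun e _ => hx e

theorem cut_le_sum {a b : E → V} {x : E → ℝ} (hx : ∀ e, 0 ≤ x e) (S : Finset V) :
    cut a b x S ≤ ∑ e, x e := by
  unfold cut
  exact Finset.sum_le_sum_of_subset_of_nonneg (Finset.filter_subset _ _) fun e _ _ => hx e

theorem fr (a b : E → V) (T : Finset V) (x : E → ℝ) (hx : ∀ e, 0 ≤ x e)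
    (hl : ∀ e, a e = b e → x e = 0)
    (hcut : ∀ U : Finset V, Odd (U ∩ T).card → 1 ≤ cut a b x U) (N : ℕ) (hN : 1 ≤ N)
    (hNx : ∑ e, x e ≤ N) : Fr (ga a b T N) (gb a b T N) (gy a b x T N) := by
  have hk2 : ∀ v, (2 : ℝ) ≤ kk T N v := by
    intro v
    have := kk_ge T N v
    have h : 2 ≤ kk T N v := by omega
    exact_mod_cast h
  have hkN : ∀ v, (N : ℝ) ≤ kk T N v := by
    intro v
    have := kk_ge T N v
    have h : N ≤ kk T N v := by omega
    exact_mod_cast h
  have ht : ∀ v, cut a b x {v} / kk T N v ≤ 1 := by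
    intro v
    rw [div_le_one (by linarith [hk2 v])]
    exact ((cut_le_sum hx _).trans hNx).trans (hkN v)
  have hα : ∀ v, 0 ≤ (1 - cut a b x {v} / kk T N v) / ((kk T N v : ℝ) - 1) := by
    intro v
    exact div_nonneg (by linarith [ht v]) (by linarith [hk2 v])
  have hszk : ∀ (S : Finset (Nd T N)) v, (sz S v : ℝ) ≤ kk T N v := by
    intro S v
    exact_mod_cast sz_le S v
  have hsz0 : ∀ (S : Finset (Nd T N)) v, (0 : ℝ) ≤ sz S v := fun S v => Nat.cast_nonneg _
  -- the terms are nonnegative
  have hterm : ∀ (S : Finset (Nd T N)) e, 0 ≤ x e / ((kk T N (a e) : ℝ) * kk T N (b e)) *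
        ((sz S (a e) : ℝ) * (kk T N (b e) - sz S (b e)) +
          (kk T N (a e) - sz S (a e)) * sz S (b e)) := by
    intro S e
    have h1 := hk2 (a e)
    have h2 := hk2 (b e)
    refine mul_nonneg (div_nonneg (hx e) (by positivity)) (add_nonneg ?_ ?_)
    · exact mul_nonneg (hsz0 S _) (by linarith [hszk S (b e)])
    · exact mul_nonneg (by linarith [hszk S (a e)]) (hsz0 S _)
  refine ⟨?_, ?_, ?_⟩
  · rintro (g | g)
    · exact div_nonneg (hx _) (by positivity)
    · exact div_nonneg (hα _) (by norm_num)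
  · rintro ⟨v, i⟩
    have hsv : sz ({⟨v, i⟩} : Finset (Nd T N)) v = 1 := by
      unfold sz
      rw [Finset.card_eq_one]
      refine ⟨i, ?_⟩
      ext j
      simp
    have hsu : ∀ u, u ≠ v → sz ({⟨v, i⟩} : Finset (Nd T N)) u = 0 := by
      intro u hu
      unfold sz
      rw [Finset.card_eq_zero, Finset.filter_eq_empty_iff]
      intro j _ hj
      rw [Finset.mem_singleton] at hj
      exact hu (congrArg Sigma.fst hj)
    rw [cut_formula]
    have e1 : ∑ e, x e / ((kk T N (a e) : ℝ) * kk T N (b e)) *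
        ((sz ({⟨v, i⟩} : Finset (Nd T N)) (a e) : ℝ) *
            (kk T N (b e) - sz ({⟨v, i⟩} : Finset (Nd T N)) (b e)) +
          (kk T N (a e) - sz ({⟨v, i⟩} : Finset (Nd T N)) (a e)) *
            sz ({⟨v, i⟩} : Finset (Nd T N)) (b e)) = cut a b x {v} / kk T N v := by
      rw [cut_eq_ite, Finset.sum_div]
      refine Finset.sum_congr rfl fun e _ => ?_
      have hka : (kk T N (a e) : ℝ) ≠ 0 := by linarith [hk2 (a e)]
      have hkb : (kk T N (b e) : ℝ) ≠ 0 := by linarith [hk2 (b e)]
      by_cases ha : a e = v <;> by_cases hb : b e = v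
      · rw [hl e (ha.trans hb.symm)]
        simp
      · have hcr : Cr a b {v} e := by rw [Cr_singleton]; tauto
        rw [if_pos hcr, hsu _ hb, ha, hsv]
        subst ha
        push_cast
        field_simp
        ring
      · have hcr : Cr a b {v} e := by rw [Cr_singleton]; tauto
        rw [if_pos hcr, hsu _ ha, hb, hsv]
        subst hb
        push_cast
        field_simp
        ring
      · have hcr : ¬ Cr a b {v} e := by rw [Cr_singleton]; tauto
        rw [if_neg hcr, hsu _ ha, hsu _ hb]
        simp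
    rw [e1, Finset.sum_eq_single v]
    · rw [hsv]
      have h1 : (kk T N v : ℝ) - 1 ≠ 0 := by linarith [hk2 v]
      have h2 : (kk T N v : ℝ) ≠ 0 := by linarith [hk2 v]
      push_cast
      field_simp
      ring
    · intro u _ hu
      rw [hsu u hu]
      simp
    · intro h
      exact absurd (Finset.mem_univ _) h
  · intro S hS
    rw [cut_formula]
    by_cases hmix : ∃ v, 0 < sz S v ∧ sz S v < kk T N v
    · obtain ⟨v, hv0, hvk⟩ := hmix
      have hv0' : (1 : ℝ) ≤ sz S v := by exact_mod_cast hv0
      have hvk' : (sz S v : ℝ) + 1 ≤ kk T N v := by exact_mod_cast hvk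
      have g1 : 1 - cut a b x {v} / kk T N v ≤
          ∑ v, (1 - cut a b x {v} / kk T N v) / (kk T N v - 1) *
            ((sz S v : ℝ) * (kk T N v - sz S v)) := by
        have h1 : (1 - cut a b x {v} / kk T N v) / ((kk T N v : ℝ) - 1) *
            ((sz S v : ℝ) * (kk T N v - sz S v)) ≤
          ∑ v, (1 - cut a b x {v} / kk T N v) / (kk T N v - 1) *
            ((sz S v : ℝ) * (kk T N v - sz S v)) := by
          refine Finset.single_le_sum (f := fun v => (1 - cut a b x {v} / kk T N v) /
            ((kk T N v : ℝ) - 1) * ((sz S v : ℝ) * (kk T N v - sz S v))) ?_ (Finset.mem_univ v)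
          intro u _
          exact mul_nonneg (hα u) (mul_nonneg (hsz0 S u) (by linarith [hszk S u]))
        refine le_trans ?_ h1
        have h2 : (kk T N v : ℝ) - 1 ≤ (sz S v : ℝ) * (kk T N v - sz S v) := by nlinarith
        have h3 : (kk T N v : ℝ) - 1 ≠ 0 := by linarith [hk2 v]
        calc 1 - cut a b x {v} / kk T N v =
            (1 - cut a b x {v} / kk T N v) / ((kk T N v : ℝ) - 1) * ((kk T N v : ℝ) - 1) := by
              field_simp
          _ ≤ _ := mul_le_mul_of_nonneg_left h2 (hα v)
      have g2 : cut a b x {v} / kk T N v ≤ ∑ e, x e / ((kk T N (a e) : ℝ) * kk T N (b e)) *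
        ((sz S (a e) : ℝ) * (kk T N (b e) - sz S (b e)) +
          (kk T N (a e) - sz S (a e)) * sz S (b e)) := by
        rw [cut_eq_ite, Finset.sum_div]
        refine Finset.sum_le_sum fun e _ => ?_
        have hka : (0 : ℝ) < kk T N (a e) := by linarith [hk2 (a e)]
        have hkb : (0 : ℝ) < kk T N (b e) := by linarith [hk2 (b e)]
        by_cases hcr : Cr a b {v} e
        · rw [if_pos hcr]
          have hcr' := hcr
          rw [Cr_singleton] at hcr
          by_cases ha : a e = v
          · have hb : b e ≠ v := by tauto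
            subst ha
            have hb1 := hszk S (b e)
            have hb0 := hsz0 S (b e)
            have key : (kk T N (b e) : ℝ) ≤ (sz S (a e) : ℝ) * (kk T N (b e) - sz S (b e)) +
                (kk T N (a e) - sz S (a e)) * sz S (b e) := by nlinarith
            calc x e / (kk T N (a e) : ℝ) =
                x e / ((kk T N (a e) : ℝ) * kk T N (b e)) * kk T N (b e) := by
                  field_simp
              _ ≤ _ := mul_le_mul_of_nonneg_left key (div_nonneg (hx e) (by positivity))
          · have hb : b e = v := by tauto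
            subst hb
            have ha1 := hszk S (a e)
            have ha0 := hsz0 S (a e)
            have key : (kk T N (a e) : ℝ) ≤ (sz S (a e) : ℝ) * (kk T N (b e) - sz S (b e)) +
                (kk T N (a e) - sz S (a e)) * sz S (b e) := by nlinarith
            calc x e / (kk T N (b e) : ℝ) =
                x e / ((kk T N (a e) : ℝ) * kk T N (b e)) * kk T N (a e) := by
                  field_simp
              _ ≤ _ := mul_le_mul_of_nonneg_left key (div_nonneg (hx e) (by positivity))
        · rw [if_neg hcr, zero_div]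
          exact hterm S e
      linarith
    · push Not at hmix
      have h01 : ∀ v, sz S v = 0 ∨ sz S v = kk T N v := by
        intro v
        by_cases h : sz S v = 0
        · exact Or.inl h
        · exact Or.inr (le_antisymm (sz_le S v) (hmix v (Nat.pos_of_ne_zero h)))
      have hkpos : ∀ v, kk T N v ≠ 0 := by
        intro v h
        have := kk_ge T N v
        omega
      let U : Finset V := univ.filter (fun v => sz S v = kk T N v)
      have hU : ∀ v, v ∈ U ↔ sz S v = kk T N v := by
        intro v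
        simp [U]
      have hodd : Odd (U ∩ T).card := by
        rw [card_eq_sum_sz] at hS
        have h1 : ∑ v, sz S v = ∑ v ∈ U, kk T N v := by
          rw [← Finset.sum_subset (Finset.subset_univ U)]
          · exact Finset.sum_congr rfl fun v hv => (hU v).1 hv
          · intro v _ hv
            rcases h01 v with h | h
            · exact h
            · exact absurd ((hU v).2 h) hv
        rw [h1, Finset.odd_sum_iff_odd_card_odd] at hS
        have h2 : U ∩ T = U.filter (fun v => Odd (kk T N v)) := by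
          ext v
          simp only [Finset.mem_inter, Finset.mem_filter, kk_odd]
        rw [h2]
        exact hS
      have h1 := hcut U hodd
      have h2 : cut a b x U ≤ ∑ e, x e / ((kk T N (a e) : ℝ) * kk T N (b e)) *
        ((sz S (a e) : ℝ) * (kk T N (b e) - sz S (b e)) +
          (kk T N (a e) - sz S (a e)) * sz S (b e)) := by
        rw [cut_eq_ite]
        refine Finset.sum_le_sum fun e _ => ?_
        have hka : (0 : ℝ) < kk T N (a e) := by linarith [hk2 (a e)]
        have hkb : (0 : ℝ) < kk T N (b e) := by linarith [hk2 (b e)]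
        split_ifs with hcr
        · unfold Cr at hcr
          by_cases ha : a e ∈ U
          · have hb : b e ∉ U := by tauto
            have hb' : sz S (b e) = 0 := (h01 (b e)).resolve_right (fun h => hb ((hU _).2 h))
            rw [hb', (hU _).1 ha]
            refine le_of_eq ?_
            push_cast
            field_simp
            ring
          · have hb : b e ∈ U := by tauto
            have ha' : sz S (a e) = 0 := (h01 (a e)).resolve_right (fun h => ha ((hU _).2 h))
            rw [ha', (hU _).1 hb]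
            refine le_of_eq ?_
            push_cast
            field_simp
            ring
        · exact hterm S e
      have h3 : 0 ≤ ∑ v, (1 - cut a b x {v} / kk T N v) / ((kk T N v : ℝ) - 1) *
          ((sz S v : ℝ) * (kk T N v - sz S v)) := by
        refine Finset.sum_nonneg fun v _ => ?_
        exact mul_nonneg (hα v) (mul_nonneg (hsz0 S v) (by linarith [hszk S v]))
      linarith

/-- number of chosen copies of an edge -/
def cnt {a b : E → V} {T : Finset V} {N : ℕ} (M : Finset (Ge a b T N)) (e : E) : ℕ :=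
  (univ.filter (fun p : Fin (kk T N (a e)) × Fin (kk T N (b e)) =>
    (Sum.inl ⟨e, p⟩ : Ge a b T N) ∈ M)).card

theorem sum_cnt {a b : E → V} {T : Finset V} {N : ℕ} (M : Finset (Ge a b T N)) (f : E → ℝ) :
    ∑ g ∈ M, (Sum.elim (fun g => f g.1) (fun _ => 0) g : ℝ) = ∑ e, f e * cnt M e := by
  classical
  have h1 : ∑ g ∈ M, (Sum.elim (fun g => f g.1) (fun _ => 0) g : ℝ) =
      ∑ g : Ge a b T N, if g ∈ M then (Sum.elim (fun g => f g.1) (fun _ => 0) g : ℝ) else 0 := by
    rw [Finset.sum_ite_mem, Finset.univ_inter]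
  rw [h1, Fintype.sum_sum_type]
  have h2 : ∑ g : (Σ v : V, Fin (kk T N v) × Fin (kk T N v)),
      (if (Sum.inr g : Ge a b T N) ∈ M then (Sum.elim (fun g => f g.1) (fun _ => 0)
        (Sum.inr g : Ge a b T N) : ℝ) else 0) = 0 := by
    refine Finset.sum_eq_zero fun g _ => ?_
    simp
  rw [h2, add_zero, Fintype.sum_sigma]
  refine Finset.sum_congr rfl fun e _ => ?_
  unfold cnt
  rw [← Finset.sum_filter]
  refine Eq.trans (Finset.sum_congr rfl (fun p _ => (rfl : _ = f e))) ?_
  rw [Finset.sum_const, nsmul_eq_mul, mul_comm]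

theorem parity {a b : E → V} {T : Finset V} {N : ℕ} {M : Finset (Ge a b T N)}
    (hM : IsPM (ga a b T N) (gb a b T N) M) (v : V) :
    Odd (∑ e ∈ univ.filter (Cr a b {v}), cnt M e) ↔ v ∈ T := by
  classical
  -- count the pairs (node of the cluster, matching edge at it)
  have h1 : ∑ i : Fin (kk T N v), (M.filter (Cr (ga a b T N) (gb a b T N) {⟨v, i⟩})).card =
      kk T N v := by
    rw [Finset.sum_congr rfl (g := fun _ => 1) (fun i _ => hM.deg _)]
    simp
  have h2 : ∑ i : Fin (kk T N v), (M.filter (Cr (ga a b T N) (gb a b T N) {⟨v, i⟩})).card =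
      ∑ g ∈ M, ((if (ga a b T N g).1 = v then 1 else 0) + (if (gb a b T N g).1 = v then 1 else 0)) := by
    simp only [Finset.card_filter]
    rw [Finset.sum_comm]
    refine Finset.sum_congr rfl fun g hg => ?_
    have hne := hM.noloop g hg
    have h3 : ∀ i : Fin (kk T N v), (if Cr (ga a b T N) (gb a b T N) {⟨v, i⟩} g then 1 else 0) =
        (if ga a b T N g = ⟨v, i⟩ then 1 else 0) + (if gb a b T N g = ⟨v, i⟩ then 1 else 0) := by
      intro i
      have hc : Cr (ga a b T N) (gb a b T N) {⟨v, i⟩} g ↔
          ¬ (ga a b T N g = ⟨v, i⟩ ↔ gb a b T N g = ⟨v, i⟩) := Cr_singleton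
      by_cases p : ga a b T N g = ⟨v, i⟩ <;> by_cases q : gb a b T N g = ⟨v, i⟩
      · exact absurd (p.trans q.symm) hne
      · rw [if_pos (hc.2 (by tauto)), if_pos p, if_neg q]
      · rw [if_pos (hc.2 (by tauto)), if_neg p, if_pos q]
      · rw [if_neg (by rw [hc]; tauto), if_neg p, if_neg q]
    rw [Finset.sum_congr rfl (fun i _ => h3 i), Finset.sum_add_distrib]
    have h4 : ∀ z : Nd T N, ∑ i : Fin (kk T N v), (if z = ⟨v, i⟩ then 1 else 0) =
        if z.1 = v then 1 else 0 := by
      rintro ⟨u, j⟩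
      by_cases hu : u = v
      · subst hu
        rw [if_pos rfl, Finset.sum_eq_single j]
        · simp
        · intro i _ hij
          rw [if_neg]
          intro h
          apply hij
          have := eq_of_heq (Sigma.mk.inj_iff.1 h).2
          exact this.symm
        · intro h
          exact absurd (Finset.mem_univ _) h
      · rw [if_neg hu]
        refine Finset.sum_eq_zero fun i _ => ?_
        rw [if_neg]
        intro h
        exact hu (congrArg Sigma.fst h)
    rw [h4, h4]
  have h5 : ∑ g ∈ M, ((if (ga a b T N g).1 = v then 1 else 0) +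
      (if (gb a b T N g).1 = v then 1 else 0)) = ∑ g : Ge a b T N, if g ∈ M then
        ((if (ga a b T N g).1 = v then 1 else 0) + (if (gb a b T N g).1 = v then 1 else 0)) else 0 := by
    rw [Finset.sum_ite_mem, Finset.univ_inter]
  rw [h2, h5, Fintype.sum_sum_type, Fintype.sum_sigma] at h1
  have h6 : Even (∑ g : (Σ v : V, Fin (kk T N v) × Fin (kk T N v)),
      if (Sum.inr g : Ge a b T N) ∈ M then
        ((if (ga a b T N (Sum.inr g)).1 = v then 1 else 0) +
          (if (gb a b T N (Sum.inr g)).1 = v then 1 else 0)) else 0) := by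
    refine Finset.even_sum _ fun g _ => ?_
    split_ifs with q1 q2 q3 q3
    · decide
    · exact absurd q2 q3
    · exact absurd q3 q2
    · decide
    · decide
  have h7 : ∑ e : E, ∑ p : Fin (kk T N (a e)) × Fin (kk T N (b e)),
      (if (Sum.inl ⟨e, p⟩ : Ge a b T N) ∈ M then
        ((if (ga a b T N (Sum.inl ⟨e, p⟩)).1 = v then 1 else 0) +
          (if (gb a b T N (Sum.inl ⟨e, p⟩)).1 = v then 1 else 0)) else 0) =
      ∑ e : E, cnt M e * ((if a e = v then 1 else 0) + (if b e = v then 1 else 0)) := by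
    refine Finset.sum_congr rfl fun e _ => ?_
    unfold cnt
    rw [← Finset.sum_filter]
    refine Eq.trans (Finset.sum_congr rfl (fun p _ =>
      (rfl : _ = ((if a e = v then 1 else 0) + (if b e = v then 1 else 0))))) ?_
    rw [Finset.sum_const, smul_eq_mul]
  rw [h7] at h1
  have h8 : ∑ e : E, cnt M e * ((if a e = v then 1 else 0) + (if b e = v then 1 else 0)) =
      ∑ e ∈ univ.filter (Cr a b {v}), cnt M e +
        2 * ∑ e ∈ univ.filter (fun e => a e = v ∧ b e = v), cnt M e := by
    rw [Finset.sum_filter, Finset.sum_filter, Finset.mul_sum, ← Finset.sum_add_distrib]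
    refine Finset.sum_congr rfl fun e _ => ?_
    have hc : Cr a b {v} e ↔ ¬ (a e = v ↔ b e = v) := Cr_singleton
    by_cases p : a e = v <;> by_cases q : b e = v
    · have hc' : ¬ Cr a b {v} e := fun h => hc.1 h (by tauto)
      rw [if_neg hc', if_pos p, if_pos q, if_pos ⟨p, q⟩]; ring
    · have hc' : Cr a b {v} e := hc.2 (by tauto)
      rw [if_pos hc', if_pos p, if_neg q, if_neg (by tauto)]; ring
    · have hc' : Cr a b {v} e := hc.2 (by tauto)
      rw [if_pos hc', if_neg p, if_pos q, if_neg (by tauto)]; ring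
    · have hc' : ¬ Cr a b {v} e := fun h => hc.1 h (by tauto)
      rw [if_neg hc', if_neg p, if_neg q, if_neg (by tauto)]; ring
  rw [h8] at h1
  rw [← kk_odd T N v, ← h1]
  obtain ⟨r, hr⟩ := h6
  rw [hr]
  constructor
  · intro h
    rcases h with ⟨s, hs⟩
    refine ⟨s + (∑ e ∈ univ.filter (fun e => a e = v ∧ b e = v), cnt M e) + r, ?_⟩
    rw [hs]; ring
  · intro h
    rcases h with ⟨s, hs⟩
    refine ⟨s - (∑ e ∈ univ.filter (fun e => a e = v ∧ b e = v), cnt M e) - r, ?_⟩
    omega

/-- **`T`-joins** (Edmonds and Johnson): a nonnegative vector with value at least one on all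
`T`-odd cuts can be rounded to a `T`-join. -/
theorem tjoin (a b : E → V) (T : Finset V) (x : E → ℝ) (hx : ∀ e, 0 ≤ x e)
    (hcut : ∀ U : Finset V, Odd (U ∩ T).card → 1 ≤ cut a b x U) (w : E → ℝ)
    (hw : ∀ e, 0 ≤ w e) :
    ∃ J : Finset E, (∀ v, Odd (J.filter (Cr a b {v})).card ↔ v ∈ T) ∧
      ∑ e ∈ J, w e ≤ ∑ e, w e * x e := by
  classical
  obtain ⟨x0, hx0⟩ : ∃ x0 : E → ℝ, ∀ e, x0 e = if a e = b e then 0 else x e := ⟨_, fun _ => rfl⟩
  have hx00 : ∀ e, 0 ≤ x0 e := by
    intro e
    rw [hx0]
    split_ifs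
    · exact le_rfl
    · exact hx e
  have hx0x : ∀ e, x0 e ≤ x e := by
    intro e
    rw [hx0]
    split_ifs
    · exact hx e
    · exact le_rfl
  have hcut0 : ∀ S, cut a b x0 S = cut a b x S := by
    intro S
    unfold cut
    refine Finset.sum_congr rfl fun e he => ?_
    rw [Finset.mem_filter] at he
    rw [hx0, if_neg (Cr_ne he.2)]
  obtain ⟨N, hN⟩ := exists_nat_ge (∑ e, x0 e)
  have hF := fr a b T x0 hx00 (fun e h => by rw [hx0, if_pos h])
    (fun U hU => by rw [hcut0]; exact hcut U hU) (N + 1) (by omega) (by push_cast; linarith)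
  have hTeven : Even T.card := by
    by_contra h
    rw [Nat.not_even_iff_odd] at h
    have h1 := hcut univ (by rw [Finset.univ_inter]; exact h)
    have h2 : cut a b x univ = 0 := by
      rw [cut_eq_ite]
      refine Finset.sum_eq_zero fun e _ => ?_
      rw [if_neg]
      simp [Cr]
    linarith
  have hcard : Even (Fintype.card (Nd T (N + 1))) := by
    rw [Fintype.card_sigma]
    simp only [Fintype.card_fin]
    rw [Finset.even_sum_iff_even_card_odd]
    have h2 : univ.filter (fun v => Odd (kk T (N + 1) v)) = T := by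
      ext v
      simp [kk_odd]
    rw [h2]
    exact hTeven
  obtain ⟨M, hM, -, hMc⟩ := round (E := Ge a b T (N + 1)) (Fintype.card (Nd T (N + 1)))
    (Nd T (N + 1)) rfl hcard (ga a b T (N + 1)) (gb a b T (N + 1)) (gy a b x0 T (N + 1))
    (Sum.elim (fun g => w g.1) (fun _ => 0)) hF
  rw [sum_cnt] at hMc
  refine ⟨univ.filter (fun e => Odd (cnt M e)), ?_, ?_⟩
  · intro v
    rw [← parity hM v, Finset.odd_sum_iff_odd_card_odd, Finset.filter_comm]
  · have h1 : ∑ e ∈ univ.filter (fun e => Odd (cnt M e)), w e ≤ ∑ e, w e * cnt M e := by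
      rw [Finset.sum_filter]
      refine Finset.sum_le_sum fun e _ => ?_
      split_ifs with h
      · have : 1 ≤ cnt M e := h.pos
        have h' : (1 : ℝ) ≤ cnt M e := by exact_mod_cast this
        nlinarith [hw e]
      · exact mul_nonneg (hw e) (Nat.cast_nonneg _)
    refine h1.trans (hMc.trans ?_)
    have h2 : ∑ g ∈ univ.filter (fun g => ga a b T (N + 1) g ≠ gb a b T (N + 1) g),
        (Sum.elim (fun g => w g.1) (fun _ => 0) g : ℝ) * gy a b x0 T (N + 1) g ≤
        ∑ g : Ge a b T (N + 1), (Sum.elim (fun g => w g.1) (fun _ => 0) g : ℝ) *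
          gy a b x0 T (N + 1) g := by
      refine Finset.sum_le_sum_of_subset_of_nonneg (Finset.filter_subset _ _) ?_
      rintro (g | g) _ _
      · exact mul_nonneg (hw _) (hF.nonneg _)
      · simp
    refine h2.trans ?_
    rw [Fintype.sum_sum_type]
    have h3 : ∑ g : (Σ v : V, Fin (kk T (N + 1) v) × Fin (kk T (N + 1) v)),
        (Sum.elim (fun g => w g.1) (fun _ => 0) (Sum.inr g : Ge a b T (N + 1)) : ℝ) *
          gy a b x0 T (N + 1) (Sum.inr g) = 0 := by
      refine Finset.sum_eq_zero fun g _ => ?_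
      simp
    rw [h3, add_zero, Fintype.sum_sigma]
    refine Finset.sum_le_sum fun e _ => ?_
    have h4 : ∑ p : Fin (kk T (N + 1) (a e)) × Fin (kk T (N + 1) (b e)),
        (Sum.elim (fun g => w g.1) (fun _ => 0) (Sum.inl ⟨e, p⟩ : Ge a b T (N + 1)) : ℝ) *
          gy a b x0 T (N + 1) (Sum.inl ⟨e, p⟩) = w e * x0 e := by
      refine Eq.trans (Finset.sum_congr rfl (fun p _ =>
        (rfl : _ = w e * (x0 e / ((kk T (N + 1) (a e) : ℝ) * kk T (N + 1) (b e)))))) ?_
      rw [Finset.sum_const, nsmul_eq_mul,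
        Finset.card_univ, Fintype.card_prod, Fintype.card_fin, Fintype.card_fin]
      have hka : (kk T (N + 1) (a e) : ℝ) ≠ 0 := by
        have := kk_ge T (N + 1) (a e)
        have : kk T (N + 1) (a e) ≠ 0 := by omega
        exact_mod_cast this
      have hkb : (kk T (N + 1) (b e) : ℝ) ≠ 0 := by
        have := kk_ge T (N + 1) (b e)
        have : kk T (N + 1) (b e) ≠ 0 := by omega
        exact_mod_cast this
      push_cast
      field_simp
    rw [h4]
    exact mul_le_mul_of_nonneg_left (hx0x e) (hw e)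

/-- parity of a cut -/
theorem odd_cut (a b : E → V) (K : Finset E) (U : Finset V) :
    Odd (∑ v ∈ U, (K.filter (Cr a b {v})).card) ↔ Odd (K.filter (Cr a b U)).card := by
  classical
  have h1 : ∑ v ∈ U, (K.filter (Cr a b {v})).card =
      (K.filter (Cr a b U)).card + 2 * (K.filter (fun e => a e ≠ b e ∧ a e ∈ U ∧ b e ∈ U)).card := by
    simp only [Finset.card_filter]
    rw [Finset.sum_comm, Finset.mul_sum, ← Finset.sum_add_distrib]
    refine Finset.sum_congr rfl fun e _ => ?_
    by_cases hab : a e = b e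
    · have h2 : ∀ v, ¬ Cr a b {v} e := fun v h => Cr_ne h hab
      have h3 : ¬ Cr a b U e := fun h => Cr_ne h hab
      rw [Finset.sum_eq_zero (fun v _ => if_neg (h2 v)), if_neg h3, if_neg (by tauto)]; rfl
    · have h2 : ∀ v, (if Cr a b {v} e then 1 else 0) =
          (if a e = v then 1 else 0) + (if b e = v then 1 else 0) := by
        intro v
        have hc : Cr a b {v} e ↔ ¬ (a e = v ↔ b e = v) := Cr_singleton
        by_cases p : a e = v <;> by_cases q : b e = v
        · exact absurd (p.trans q.symm) hab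
        · rw [if_pos (hc.2 (by tauto)), if_pos p, if_neg q]
        · rw [if_pos (hc.2 (by tauto)), if_neg p, if_pos q]
        · rw [if_neg (fun h => hc.1 h (by tauto)), if_neg p, if_neg q]
      rw [Finset.sum_congr rfl (fun v _ => h2 v), Finset.sum_add_distrib, Finset.sum_ite_eq,
        Finset.sum_ite_eq]
      by_cases p : a e ∈ U <;> by_cases q : b e ∈ U
      · have hc : ¬ Cr a b U e := fun h => h ⟨fun _ => q, fun _ => p⟩
        rw [if_pos p, if_pos q, if_neg hc, if_pos ⟨hab, p, q⟩]; rfl
      · have hc : Cr a b U e := fun h => q (h.1 p)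
        rw [if_pos p, if_neg q, if_pos hc, if_neg (by tauto)]; rfl
      · have hc : Cr a b U e := fun h => p (h.2 q)
        rw [if_neg p, if_pos q, if_pos hc, if_neg (by tauto)]; rfl
      · have hc : ¬ Cr a b U e := fun h => h ⟨fun h => absurd h p, fun h => absurd h q⟩
        rw [if_neg p, if_neg q, if_neg hc, if_neg (by tauto)]; rfl
  rw [h1]
  constructor
  · rintro ⟨r, hr⟩
    exact ⟨r - (K.filter (fun e => a e ≠ b e ∧ a e ∈ U ∧ b e ∈ U)).card, by omega⟩
  · rintro ⟨r, hr⟩
    exact ⟨r + (K.filter (fun e => a e ≠ b e ∧ a e ∈ U ∧ b e ∈ U)).card, by omega⟩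

end Pool.Agent.U396.TJ
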