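import Pool.Agent.Helper531_Thick.Topo
import Pool.Agent.U396.TJ

/-! Triangle-free plane graphs through the grid model of their subdivision: the edge bound, and the
bipartization theorem: the weight of the monochromatic edges can be made at most one fifth. -/

set_option autoImplicit false
set_option linter.unusedSectionVars false

namespace Pool.Agent.U396.Dual

open Finset Pool.Agent.Helper531_Thick

variable {V B : Type} [Fintype V] [Fintype B] [DecidableEq V] [DecidableEq B]

/-- a graph whose edges are indexed by `B`, with ends `s b` and `t b` -/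
structure Ix (G : SimpleGraph V) (s t : B → V) : Prop where
  adj : ∀ b, G.Adj (s b) (t b)
  inj : ∀ b b', s(s b, t b) = s(s b', t b') → b = b'

/-- the half edges -/
def Eh (s t : B → V) : Finset (V × B) := univ.filter (fun p => p.1 = s p.2 ∨ p.1 = t p.2)

theorem mem_Eh {s t : B → V} {p : V × B} : p ∈ Eh s t ↔ p.1 = s p.2 ∨ p.1 = t p.2 := by
  simp [Eh]

/-- an even nonempty set of edges of a triangle-free graph has at least four elements -/
theorem four_le_of_even {G : SimpleGraph V} {s t : B → V} (hI : Ix G s t) (hG : G.CliqueFree 3)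
    (F : Finset B) (hF : F.Nonempty)
    (hev : ∀ v, Even (F.filter (fun b => v = s b ∨ v = t b)).card) : 4 ≤ F.card := by
  classical
  have other : ∀ b ∈ F, ∀ v, (v = s b ∨ v = t b) → ∃ b' ∈ F, b' ≠ b ∧
      ∃ u, s(s b', t b') = s(v, u) := by
    intro b hb v hv
    have h1 : b ∈ F.filter (fun b => v = s b ∨ v = t b) := Finset.mem_filter.2 ⟨hb, hv⟩
    have h2 : 1 < (F.filter (fun b => v = s b ∨ v = t b)).card := by
      have h3 : 0 < (F.filter (fun b => v = s b ∨ v = t b)).card := Finset.card_pos.2 ⟨b, h1⟩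
      obtain ⟨k, hk⟩ := hev v
      omega
    obtain ⟨b', hb', hne⟩ := Finset.exists_mem_ne h2 b
    rw [Finset.mem_filter] at hb'
    refine ⟨b', hb'.1, hne, ?_⟩
    rcases hb'.2 with h | h
    · exact ⟨t b', by rw [h]⟩
    · exact ⟨s b', by rw [h, Sym2.eq_swap]⟩
  have ends : ∀ b v u, s(s b, t b) = s(v, u) → G.Adj v u ∧ (v = s b ∨ v = t b) ∧
      (u = s b ∨ u = t b) := by
    intro b v u h
    have h1 := hI.adj b
    rw [← SimpleGraph.mem_edgeSet, h, SimpleGraph.mem_edgeSet] at h1
    refine ⟨h1, ?_, ?_⟩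
    · have : v ∈ s(s b, t b) := by rw [h]; exact Sym2.mem_mk_left _ _
      rwa [Sym2.mem_iff] at this
    · have : u ∈ s(s b, t b) := by rw [h]; exact Sym2.mem_mk_right _ _
      rwa [Sym2.mem_iff] at this
  obtain ⟨b0, hb0⟩ := hF
  obtain ⟨b1, hb1, h10, x2, e1⟩ := other b0 hb0 (t b0) (Or.inr rfl)
  obtain ⟨a1, -, m1⟩ := ends b1 _ _ e1
  obtain ⟨b2, hb2, h21, x3, e2⟩ := other b1 hb1 x2 m1
  obtain ⟨a2, -, m2⟩ := ends b2 _ _ e2
  obtain ⟨b3, hb3, h30, y, e3⟩ := other b0 hb0 (s b0) (Or.inl rfl)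
  have a0 := hI.adj b0
  have n20 : x2 ≠ s b0 := by
    intro h
    apply h10
    apply hI.inj
    rw [e1, h, Sym2.eq_swap]
  have n21 : x2 ≠ t b0 := a1.ne'
  have n31 : x3 ≠ t b0 := by
    intro h
    apply h21
    apply hI.inj
    rw [e1, e2, h, Sym2.eq_swap]
  have n30 : x3 ≠ s b0 := by
    intro h
    rw [h] at a2
    have := hG {s b0, t b0, x2}
    apply this
    rw [SimpleGraph.is3Clique_triple_iff]
    exact ⟨a0, a2.symm, a1⟩
  have h20 : b2 ≠ b0 := by
    intro h
    rw [h] at e2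
    have : x2 ∈ s(s b0, t b0) := by rw [e2]; exact Sym2.mem_mk_left _ _
    rw [Sym2.mem_iff] at this
    tauto
  have h31 : b3 ≠ b1 := by
    intro h
    rw [h, e1] at e3
    have : s b0 ∈ s(t b0, x2) := by rw [e3]; exact Sym2.mem_mk_left _ _
    rw [Sym2.mem_iff] at this
    rcases this with h | h
    · exact a0.ne h
    · exact n20 h.symm
  have h32 : b3 ≠ b2 := by
    intro h
    rw [h, e2] at e3
    have : s b0 ∈ s(x2, x3) := by rw [e3]; exact Sym2.mem_mk_left _ _
    rw [Sym2.mem_iff] at this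
    rcases this with h | h
    · exact n20 h.symm
    · exact n30 h.symm
  have hsub : ({b0, b1, b2, b3} : Finset B) ⊆ F := by
    intro b hb
    simp only [mem_insert, mem_singleton] at hb
    rcases hb with rfl | rfl | rfl | rfl <;> assumption
  refine le_trans ?_ (Finset.card_le_card hsub)
  rw [Finset.card_insert_of_notMem, Finset.card_insert_of_notMem, Finset.card_insert_of_notMem,
    Finset.card_singleton]
  · rw [mem_singleton]; exact h32.symm
  · rw [mem_insert, mem_singleton]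
    rintro (h | h)
    · exact h21 h.symm
    · exact h31 h.symm
  · rw [mem_insert, mem_insert, mem_singleton]
    rintro (h | h | h)
    · exact h10 h.symm
    · exact h20 h.symm
    · exact h30 h.symm

section model

variable {G : SimpleGraph V} {s t : B → V} (M : Model V B (Eh s t))

/-- the change of `f` across the edge `b` -/
def dl (M : Model V B (Eh s t)) (f : Pt → ZMod 2) (b : B) : ZMod 2 :=
  f (cell1 (M.ra (s b, b))) + f (cell2 (M.ra (s b, b)))

theorem filter_b (hI : Ix G s t) (b : B) :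
    (Eh s t).filter (fun e => e.2 = b) = {(s b, b), (t b, b)} := by
  ext ⟨v, b'⟩
  simp only [mem_filter, mem_Eh, mem_insert, mem_singleton, Prod.mk.injEq]
  constructor
  · rintro ⟨h1 | h1, rfl⟩
    · exact Or.inl ⟨h1, rfl⟩
    · exact Or.inr ⟨h1, rfl⟩
  · rintro (⟨h1, rfl⟩ | ⟨h1, rfl⟩)
    · exact ⟨Or.inl h1, rfl⟩
    · exact ⟨Or.inr h1, rfl⟩

variable (hI : Ix G s t)

include hI

theorem dl_t (f : Pt → ZMod 2)
    (hf : ∀ g, f (cell1 g) + f (cell2 g) ≠ 0 → ∃ e ∈ Eh s t, M.C e g ≠ 0) (b : B) :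
    f (cell1 (M.ra (t b, b))) + f (cell2 (M.ra (t b, b))) = dl M f b := by
  have h := M.even_b f hf b
  rw [filter_b hI, Finset.sum_pair] at h
  · have e2 : ∀ a b : ZMod 2, a + b = 0 → b = a := by decide
    exact e2 _ _ h
  · intro h
    exact (hI.adj b).ne (congrArg Prod.fst h)

theorem dl_even (f : Pt → ZMod 2)
    (hf : ∀ g, f (cell1 g) + f (cell2 g) ≠ 0 → ∃ e ∈ Eh s t, M.C e g ≠ 0) (v : V) :
    Even ((univ.filter (fun b => dl M f b ≠ 0)).filter (fun b => v = s b ∨ v = t b)).card := by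
  have h := M.even_a f hf v
  have h1 : (Eh s t).filter (fun e => e.1 = v) =
      (univ.filter (fun b : B => v = s b ∨ v = t b)).image (fun b => (v, b)) := by
    ext ⟨u, b⟩
    simp only [mem_filter, mem_Eh, mem_image, mem_univ, true_and, Prod.mk.injEq]
    constructor
    · rintro ⟨h1, rfl⟩
      exact ⟨b, h1, rfl, rfl⟩
    · rintro ⟨b', h1, rfl, rfl⟩
      exact ⟨h1, rfl⟩
  rw [h1, Finset.sum_image (fun b _ b' _ h => congrArg Prod.snd h)] at h
  have h2 : ∑ b ∈ univ.filter (fun b : B => v = s b ∨ v = t b),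
      (f (cell1 (M.ra (v, b))) + f (cell2 (M.ra (v, b)))) =
      ∑ b ∈ univ.filter (fun b : B => v = s b ∨ v = t b), dl M f b := by
    refine Finset.sum_congr rfl fun b hb => ?_
    rw [mem_filter] at hb
    rcases hb.2 with h3 | h3
    · rw [h3]; rfl
    · rw [h3]; exact dl_t M hI f hf b
  rw [h2] at h
  have e1 : ∀ a : ZMod 2, a ≠ 0 → a = 1 := by decide
  have h3 : ∑ b ∈ univ.filter (fun b : B => v = s b ∨ v = t b), dl M f b =
      (((univ.filter (fun b => dl M f b ≠ 0)).filter (fun b => v = s b ∨ v = t b)).card : ZMod 2) := by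
    rw [Finset.filter_filter, Finset.card_filter, Finset.sum_filter, Nat.cast_sum]
    refine Finset.sum_congr rfl fun b _ => ?_
    by_cases h4 : v = s b ∨ v = t b
    · by_cases h5 : dl M f b = 0
      · simp [h4, h5]
      · rw [if_pos h4, if_pos ⟨h5, h4⟩, e1 _ h5, Nat.cast_one]
    · simp [h4]
  rw [h3] at h
  exact (ZMod.natCast_eq_zero_iff_even).1 h

theorem four_le_dl (hG : G.CliqueFree 3) (f : Pt → ZMod 2)
    (hf : ∀ g, f (cell1 g) + f (cell2 g) ≠ 0 → ∃ e ∈ Eh s t, M.C e g ≠ 0)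
    (h0 : ∃ b, dl M f b ≠ 0) : 4 ≤ (univ.filter (fun b => dl M f b ≠ 0)).card := by
  obtain ⟨b, hb⟩ := h0
  exact four_le_of_even hI hG _ ⟨b, by simp [hb]⟩ (dl_even M hI f hf)

include M in
/-- **Edge bound** for triangle-free plane graphs. -/
theorem edge_bound (hG : G.CliqueFree 3) [Nonempty V] : Fintype.card B < 2 * Fintype.card V := by
  classical
  have hEcard : (Eh s t).card = 2 * Fintype.card B := by
    rw [Finset.card_eq_sum_card_fiberwise (f := Prod.snd) (t := univ) (fun _ _ => mem_univ _)]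
    rw [Finset.sum_congr rfl (g := fun _ => 2)]
    · simp [mul_comm]
    · intro b _
      rw [filter_b hI, Finset.card_pair]
      intro h
      exact (hI.adj b).ne (congrArg Prod.fst h)
  have hVB : Fintype.card (V ⊕ B) = Fintype.card V + Fintype.card B := Fintype.card_sum
  have h1 := Model.rank_ge (A := V) (B := B) (E := Eh s t)
  by_cases hne : M.vals.Nonempty
  · have h2 := M.rank_le hne
    have h4 : 4 * M.vals.card ≤ 2 * Fintype.card B := by
      have h1 : ∀ ψ ∈ M.vals, 4 ≤ (univ.filter (fun b => dl M (M.ind ψ) b ≠ 0)).card := by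
        intro ψ hψ
        apply four_le_dl M hI hG (M.ind ψ) (M.ind_supp ψ)
        simp only [Model.vals, mem_biUnion, mem_filter, mem_univ, true_and, mem_insert,
          mem_singleton] at hψ
        obtain ⟨e, ⟨σ, hσ⟩, hψ⟩ := hψ
        have hne : M.F (cell1 (M.ra e.1)) ≠ M.F (cell2 (M.ra e.1)) := by
          intro h
          apply hσ
          rw [← M.F_ra e σ, h]
          exact z2 _
        have h5 : M.ind ψ (cell1 (M.ra e.1)) + M.ind ψ (cell2 (M.ra e.1)) ≠ 0 := by
          rcases hψ with rfl | rfl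
          · unfold Model.ind
            rw [if_pos rfl, if_neg hne.symm]
            decide
          · unfold Model.ind
            rw [if_neg hne, if_pos rfl]
            decide
        refine ⟨e.1.2, ?_⟩
        have h6 := mem_Eh.1 e.2
        rcases h6 with h6 | h6
        · have : e.1 = (s e.1.2, e.1.2) := Prod.ext h6 rfl
          unfold dl
          rw [← this]
          exact h5
        · have : e.1 = (t e.1.2, e.1.2) := Prod.ext h6 rfl
          rw [← dl_t M hI _ (M.ind_supp ψ), ← this]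
          exact h5
      have h2 : ∑ ψ ∈ M.vals, (univ.filter (fun b => dl M (M.ind ψ) b ≠ 0)).card =
          ∑ b : B, (M.vals.filter (fun ψ => dl M (M.ind ψ) b ≠ 0)).card :=
        Finset.sum_card_bipartiteAbove_eq_sum_card_bipartiteBelow _
      have h3 : ∀ b : B, (M.vals.filter (fun ψ => dl M (M.ind ψ) b ≠ 0)).card ≤ 2 := by
        intro b
        have : (M.vals.filter (fun ψ => dl M (M.ind ψ) b ≠ 0)) ⊆
          {M.F (cell1 (M.ra (s b, b))), M.F (cell2 (M.ra (s b, b)))} := by
          intro ψ hψ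
          simp only [mem_filter] at hψ
          simp only [mem_insert, mem_singleton]
          exact M.ind_mem ψ _ hψ.2
        exact (Finset.card_le_card this).trans Finset.card_le_two
      have h4 := Finset.sum_le_sum h1
      have h5 := Finset.sum_le_sum (fun b (_ : b ∈ (univ : Finset B)) => h3 b)
      rw [h2] at h4
      simp only [Finset.sum_const, smul_eq_mul, Finset.card_univ] at h4 h5
      omega
    omega
  · have h2 := M.rank_zero hne
    have h3 : 0 < Fintype.card V := Fintype.card_pos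
    omega

end model

section bip

open Pool.Agent.U396.TJ

/-- the cycle space -/
noncomputable abbrev Zs (s t : B → V) := LinearMap.ker (Model.bG (Eh s t))
/-- its dual -/
abbrev Wd (s t : B → V) := Zs s t →ₗ[ZMod 2] ZMod 2

instance (s t : B → V) : Finite (Wd s t) := DFunLike.finite _
noncomputable instance (s t : B → V) : Fintype (Wd s t) := Fintype.ofFinite _
noncomputable instance (s t : B → V) : DecidableEq (Wd s t) := Classical.decEq _

variable {G : SimpleGraph V} {s t : B → V}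

theorem sum_cross (P1 P2 : B → Wd s t) (σ : Zs s t) (b : B) :
    ∑ ψ : Wd s t, (if H249R2.PM.Cr P1 P2 {ψ} b then ψ σ else 0) = P1 b σ + P2 b σ := by
  by_cases hab : P1 b = P2 b
  · have h2 : ∀ v, ¬ H249R2.PM.Cr P1 P2 {v} b := fun v h => Pool.Agent.H249R2.PM.Cr_ne h hab
    rw [Finset.sum_eq_zero (fun v _ => if_neg (h2 v)), hab]
    exact (z2 _).symm
  · have h2 : ∀ ψ, (if H249R2.PM.Cr P1 P2 {ψ} b then ψ σ else 0) =
        (if P1 b = ψ then ψ σ else 0) + (if P2 b = ψ then ψ σ else 0) := by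
      intro v
      have hc : H249R2.PM.Cr P1 P2 {v} b ↔ ¬ (P1 b = v ↔ P2 b = v) := Pool.Agent.H249R2.PM.Cr_singleton
      by_cases p : P1 b = v <;> by_cases q : P2 b = v
      · exact absurd (p.trans q.symm) hab
      · rw [if_pos (hc.2 (by tauto)), if_pos p, if_neg q, add_zero]
      · rw [if_pos (hc.2 (by tauto)), if_neg p, if_pos q, zero_add]
      · rw [if_neg (fun h => hc.1 h (by tauto)), if_neg p, if_neg q, add_zero]
    rw [Finset.sum_congr rfl (fun v _ => h2 v), Finset.sum_add_distrib, Finset.sum_ite_eq,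
      Finset.sum_ite_eq, if_pos (mem_univ _), if_pos (mem_univ _)]

/-- **Bipartization**: in a triangle-free plane graph the weight of the monochromatic edges of some
2-colouring is at most one fifth of the total weight. -/
theorem bip (hI : Ix G s t) (M : Model V B (Eh s t)) (hG : G.CliqueFree 3) (w : B → ℝ)
    (hw : ∀ b, 0 ≤ w b) :
    ∃ c : V → ZMod 2, ∑ b ∈ univ.filter (fun b => c (s b) = c (t b)), w b ≤ (∑ b, w b) / 5 := by
  classical
  obtain ⟨P1, hP1⟩ : ∃ P1 : B → Wd s t, ∀ b, P1 b = M.F (cell1 (M.ra (s b, b))) :=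
    ⟨_, fun _ => rfl⟩
  obtain ⟨P2, hP2⟩ : ∃ P2 : B → Wd s t, ∀ b, P2 b = M.F (cell2 (M.ra (s b, b))) :=
    ⟨_, fun _ => rfl⟩
  obtain ⟨T, hT⟩ : ∃ T : Finset (Wd s t), ∀ ψ, ψ ∈ T ↔ Odd (univ.filter (H249R2.PM.Cr P1 P2 {ψ})).card :=
    ⟨univ.filter (fun ψ => Odd (univ.filter (H249R2.PM.Cr P1 P2 {ψ})).card), fun ψ => by simp⟩
  have hcut : ∀ U : Finset (Wd s t), Odd (U ∩ T).card →
      1 ≤ Pool.Agent.H249R2.PM.cut P1 P2 (fun _ => (1 / 5 : ℝ)) U := by
    intro U hU
    obtain ⟨f, hf⟩ : ∃ f : Pt → ZMod 2, ∀ x, f x = if M.F x ∈ U then 1 else 0 :=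
      ⟨_, fun _ => rfl⟩
    have hfs : ∀ g, f (cell1 g) + f (cell2 g) ≠ 0 → ∃ e ∈ Eh s t, M.C e g ≠ 0 := by
      intro g h
      by_contra hc
      push Not at hc
      apply h
      have h1 : M.F (cell1 g) = M.F (cell2 g) := by
        ext σ
        have h2 := M.F_edge g σ
        rw [M.cyc_apply, Finset.sum_eq_zero (fun e _ => by rw [hc e.1 e.2, mul_zero])] at h2
        have h3 : ∀ a b : ZMod 2, a + b = 0 → a = b := by decide
        exact h3 _ _ h2
      rw [hf, hf, h1]
      exact z2 _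
    have hset : univ.filter (fun b => dl M f b ≠ 0) = univ.filter (H249R2.PM.Cr P1 P2 U) := by
      ext b
      simp only [mem_filter, mem_univ, true_and]
      unfold dl Pool.Agent.H249R2.PM.Cr
      rw [hf, hf, hP1, hP2]
      by_cases p : M.F (cell1 (M.ra (s b, b))) ∈ U <;>
        by_cases q : M.F (cell2 (M.ra (s b, b))) ∈ U <;> simp [p, q, z2]
    have hodd : Odd (univ.filter (H249R2.PM.Cr P1 P2 U)).card := by
      rw [← odd_cut, Finset.odd_sum_iff_odd_card_odd]
      have : U.filter (fun ψ => Odd (univ.filter (H249R2.PM.Cr P1 P2 {ψ})).card) = U ∩ T := by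
        ext ψ
        rw [mem_filter, mem_inter, hT]
      rw [this]
      exact hU
    have h5 : 5 ≤ (univ.filter (H249R2.PM.Cr P1 P2 U)).card := by
      have h4 : 4 ≤ (univ.filter (H249R2.PM.Cr P1 P2 U)).card := by
        rw [← hset]
        apply four_le_dl M hI hG f hfs
        have h1 := hodd.pos
        rw [← hset] at h1
        obtain ⟨b, hb⟩ := Finset.card_pos.1 h1
        exact ⟨b, (mem_filter.1 hb).2⟩
      obtain ⟨r, hr⟩ := hodd
      omega
    unfold Pool.Agent.H249R2.PM.cut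
    rw [Finset.sum_const, nsmul_eq_mul]
    have h5' : (5 : ℝ) ≤ (univ.filter (H249R2.PM.Cr P1 P2 U)).card := by exact_mod_cast h5
    linarith
  obtain ⟨J, hJ, hJw⟩ := tjoin P1 P2 T (fun _ => (1 / 5 : ℝ)) (fun _ => by norm_num) hcut w hw
  have hJc : ∀ ψ : Wd s t, Even (Jᶜ.filter (H249R2.PM.Cr P1 P2 {ψ})).card := by
    intro ψ
    have h1 : (univ.filter (H249R2.PM.Cr P1 P2 {ψ})).card =
        (J.filter (H249R2.PM.Cr P1 P2 {ψ})).card + (Jᶜ.filter (H249R2.PM.Cr P1 P2 {ψ})).card := by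
      rw [← Finset.card_union_of_disjoint]
      · congr 1
        ext b
        simp only [mem_filter, mem_univ, true_and, mem_union, mem_compl]
        by_cases hb : b ∈ J <;> simp [hb]
      · rw [Finset.disjoint_left]
        intro b hb hb'
        simp only [mem_filter, mem_compl] at hb hb'
        tauto
    have h2 : Odd (univ.filter (H249R2.PM.Cr P1 P2 {ψ})).card ↔ Odd (J.filter (H249R2.PM.Cr P1 P2 {ψ})).card := by
      rw [hJ, hT]
    rw [h1, Nat.odd_add] at h2
    by_contra h3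
    rw [Nat.not_even_iff_odd] at h3
    have h4 : ¬ Even (Jᶜ.filter (H249R2.PM.Cr P1 P2 {ψ})).card := Nat.not_even_iff_odd.2 h3
    tauto
  have hzero : ∀ σ : Zs s t, ∑ b ∈ Jᶜ, σ.1 ⟨(s b, b), mem_Eh.2 (Or.inl rfl)⟩ = 0 := by
    intro σ
    have h1 : ∀ b, σ.1 ⟨(s b, b), mem_Eh.2 (Or.inl rfl)⟩ =
        ∑ ψ : Wd s t, (if H249R2.PM.Cr P1 P2 {ψ} b then ψ σ else 0) := by
      intro b
      rw [sum_cross, hP1, hP2]
      exact (M.F_ra ⟨(s b, b), mem_Eh.2 (Or.inl rfl)⟩ σ).symm
    rw [Finset.sum_congr rfl (fun b _ => h1 b), Finset.sum_comm]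
    refine Finset.sum_eq_zero fun ψ _ => ?_
    rw [← Finset.sum_filter, Finset.sum_const, nsmul_eq_mul,
      (ZMod.natCast_eq_zero_iff_even).2 (hJc ψ), zero_mul]
  -- linear algebra: the functional is a coboundary
  let φ : (Eh s t → ZMod 2) →ₗ[ZMod 2] ZMod 2 :=
    ∑ b ∈ Jᶜ, LinearMap.proj (R := ZMod 2) (φ := fun _ : Eh s t => ZMod 2)
      ⟨(s b, b), mem_Eh.2 (Or.inl rfl)⟩
  have hφ : ∀ σ, φ σ = ∑ b ∈ Jᶜ, σ ⟨(s b, b), mem_Eh.2 (Or.inl rfl)⟩ := by
    intro σ
    simp [φ, LinearMap.sum_apply]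
  have hmem : φ ∈ LinearMap.range (Model.bG (Eh s t)).dualMap := by
    rw [LinearMap.range_dualMap_eq_dualAnnihilator_ker, Submodule.mem_dualAnnihilator]
    intro σ hσ
    rw [hφ]
    exact hzero ⟨σ, hσ⟩
  obtain ⟨ψ, hψ⟩ := hmem
  have hval : ∀ e : Eh s t, ψ (Pi.single (Sum.inl e.1.1) 1) + ψ (Pi.single (Sum.inr e.1.2) 1) =
      φ (Pi.single e 1) := by
    intro e
    rw [← hψ, LinearMap.dualMap_apply, ← map_add]
    congr 1
    ext w'
    change _ = ∑ e' : Eh s t, (Pi.single e (1 : ZMod 2) : Eh s t → ZMod 2) e' * Model.inc w' e'.1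
    rw [Finset.sum_eq_single e]
    · unfold Model.inc
      simp only [Pi.add_apply, Pi.single_apply, if_true, one_mul]
    · intro e' _ hne
      rw [Pi.single_apply, if_neg hne, zero_mul]
    · intro h
      exact absurd (mem_univ _) h
  have hφ1 : ∀ b, φ (Pi.single ⟨(s b, b), mem_Eh.2 (Or.inl rfl)⟩ 1) = if b ∈ J then 0 else 1 := by
    intro b
    rw [hφ]
    have h1 : ∀ b', (Pi.single (⟨(s b, b), mem_Eh.2 (Or.inl rfl)⟩ : Eh s t) (1 : ZMod 2) :
        Eh s t → ZMod 2) ⟨(s b', b'), mem_Eh.2 (Or.inl rfl)⟩ = if b = b' then 1 else 0 := by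
      intro b'
      rw [Pi.single_apply]
      by_cases h : b = b'
      · subst h; simp
      · rw [if_neg, if_neg h]
        intro h2
        exact h (congrArg (fun e : Eh s t => e.1.2) h2).symm
    rw [Finset.sum_congr rfl (fun b' _ => h1 b'), Finset.sum_ite_eq]
    by_cases h : b ∈ J <;> simp [h]
  have hφ2 : ∀ b, φ (Pi.single ⟨(t b, b), mem_Eh.2 (Or.inr rfl)⟩ 1) = 0 := by
    intro b
    rw [hφ]
    refine Finset.sum_eq_zero fun b' _ => ?_
    rw [Pi.single_apply, if_neg]
    intro h2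
    have h3 : b' = b := congrArg (fun e : Eh s t => e.1.2) h2
    have h4 : s b' = t b := congrArg (fun e : Eh s t => e.1.1) h2
    subst h3
    exact (hI.adj b').ne h4
  refine ⟨fun v => ψ (Pi.single (Sum.inl v) 1), ?_⟩
  have hsub : univ.filter (fun b => ψ (Pi.single (Sum.inl (s b)) 1) =
      ψ (Pi.single (Sum.inl (t b)) 1)) ⊆ J := by
    intro b hb
    rw [mem_filter] at hb
    by_contra hbJ
    have h1 := hval ⟨(s b, b), mem_Eh.2 (Or.inl rfl)⟩
    have h2 := hval ⟨(t b, b), mem_Eh.2 (Or.inr rfl)⟩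
    rw [hφ1, if_neg hbJ] at h1
    rw [hφ2] at h2
    simp only at h1 h2
    rw [hb.2, h2] at h1
    exact zero_ne_one h1
  refine (Finset.sum_le_sum_of_subset_of_nonneg hsub (fun b _ _ => hw b)).trans (hJw.trans ?_)
  rw [← Finset.sum_mul]
  linarith

end bip

end Pool.Agent.U396.Dual
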