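import Pool.Agent.Helper770.Sep
import Pool.Agent.U396.Dual

/-! A bounded set of vertices touched by few edges, in graphs without `K₅` models. -/

set_option autoImplicit false
set_option linter.unusedSectionVars false

namespace Pool.Agent.U396.Loc

open Finset Pool.Agent.Helper770.Sep

variable {V B : Type} [Fintype V] [DecidableEq V] [Fintype B] [DecidableEq B]
  {G : SimpleGraph V} {s t : B → V}

/-- number of edges that touch `X` -/
def et (s t : B → V) (X : Finset V) : ℕ := (univ.filter (fun b => s b ∈ X ∨ t b ∈ X)).card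

theorem et_mono (s t : B → V) {X Y : Finset V} (h : X ⊆ Y) : et s t X ≤ et s t Y := by
  unfold et
  apply Finset.card_le_card
  intro b hb
  rw [mem_filter] at hb ⊢
  exact ⟨hb.1, hb.2.imp (fun h' => h h') (fun h' => h h')⟩

theorem comp_sum (hI : Dual.Ix G s t) (ρ : ℝ) (X0 : Finset V)
    (h : ∀ K ⊆ X0, Conn G K → ρ * K.card ≤ et s t K) :
    ∀ (n : ℕ) (X : Finset V), X ⊆ X0 → X.card = n → ρ * X.card ≤ et s t X := by
  classical
  intro n
  induction n using Nat.strong_induction_on with
  | _ n ih =>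
  intro X hX hn
  rcases Finset.eq_empty_or_nonempty X with rfl | hne
  · simp
  let P : Finset V → Prop := fun K => K ⊆ X ∧ K.Nonempty ∧ ∀ x ∈ K, ∀ y ∈ X, G.Adj x y → y ∈ K
  obtain ⟨K, hK, hmin⟩ := Finset.exists_min_image (X.powerset.filter P) Finset.card
    ⟨X, by
      rw [mem_filter, mem_powerset]
      exact ⟨Finset.Subset.refl _, Finset.Subset.refl _, hne, fun x _ y hy _ => hy⟩⟩
  rw [mem_filter, mem_powerset] at hK
  obtain ⟨hKX, -, hKne, hKcl⟩ := hK
  have hKc : Conn G K := by
    refine ⟨hKne, fun A hA hAne hAcl => ?_⟩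
    apply Finset.eq_of_subset_of_card_le hA
    apply hmin
    rw [mem_filter, mem_powerset]
    refine ⟨hA.trans hKX, hA.trans hKX, hAne, ?_⟩
    intro x hx y hy hxy
    exact hAcl x hx y (hKcl x (hA hx) y hy hxy) hxy
  have h1 := h K (hKX.trans hX) hKc
  have hlt : (X \ K).card < n := by
    rw [← hn]
    apply Finset.card_lt_card
    refine Finset.ssubset_iff_subset_ne.2 ⟨Finset.sdiff_subset, ?_⟩
    intro h2
    obtain ⟨x, hx⟩ := hKne
    have h3 : x ∈ X \ K := by rw [h2]; exact hKX hx
    exact (mem_sdiff.1 h3).2 hx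
  have h2 := ih _ hlt (X \ K) (Finset.sdiff_subset.trans hX) rfl
  have h3 : et s t K + et s t (X \ K) ≤ et s t X := by
    unfold et
    rw [← Finset.card_union_of_disjoint]
    · apply Finset.card_le_card
      intro b hb
      simp only [mem_union, mem_filter, mem_univ, true_and, mem_sdiff] at hb ⊢
      rcases hb with (hb | hb) | (hb | hb)
      · exact Or.inl (hKX hb)
      · exact Or.inr (hKX hb)
      · exact Or.inl hb.1
      · exact Or.inr hb.1
    · rw [Finset.disjoint_left]
      intro b hb hb'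
      simp only [mem_filter, mem_univ, true_and, mem_sdiff] at hb hb'
      have hadj := hI.adj b
      rcases hb with hb | hb
      · rcases hb' with hb' | hb'
        · exact hb'.2 hb
        · exact hb'.2 (hKcl _ hb _ hb'.1 hadj)
      · rcases hb' with hb' | hb'
        · exact hb'.2 (hKcl _ hb _ hb'.1 hadj.symm)
        · exact hb'.2 hb
  have h4 : (X.card : ℝ) = K.card + (X \ K).card := by
    rw [Finset.card_sdiff_of_subset hKX, Nat.cast_sub (Finset.card_le_card hKX)]
    ring
  have h5 : (et s t K : ℝ) + et s t (X \ K) ≤ et s t X := by exact_mod_cast h3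
  rw [h4, mul_add]
  linarith

theorem sepW (hK : NoK5 G) (W : Finset V) (hW : W.Nonempty) :
    ∃ S ⊆ W, (S.card : ℝ) ≤ 17 * Real.sqrt W.card ∧
      ∀ K ⊆ W \ S, Conn G K → 2 * K.card ≤ W.card := by
  classical
  have hsum : ∀ T : Finset V, ∑ z ∈ T, (if z ∈ W then 1 else 0) = (T ∩ W).card := by
    intro T
    rw [← Finset.card_filter, Finset.filter_mem_eq_inter]
  obtain ⟨S, hS, hT⟩ := separator G hK (fun z => if z ∈ W then 1 else 0)
    (fun z => if z ∈ W then 1 else 0) (Nat.sqrt (5 * W.card) + 1) (Nat.succ_pos _) (by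
      have h1 : ∑ z : V, (if z ∈ W then 1 else 0) ^ 2 = W.card := by
        have : ∀ z : V, (if z ∈ W then 1 else 0) ^ 2 = (if z ∈ W then 1 else 0) := by
          intro z; split_ifs <;> rfl
        rw [Finset.sum_congr rfl (fun z _ => this z), hsum, Finset.univ_inter]
      rw [h1]
      have := Nat.lt_succ_sqrt (5 * W.card)
      rw [Nat.succ_eq_add_one] at this
      nlinarith)
  rw [hsum] at hS
  refine ⟨S ∩ W, Finset.inter_subset_right, ?_, ?_⟩
  · have h1 : ((S ∩ W).card : ℝ) ≤ 5 * (Nat.sqrt (5 * W.card) + 1) := by exact_mod_cast hS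
    have h2 : (Nat.sqrt (5 * W.card) : ℝ) ≤ Real.sqrt (5 * W.card) := by
      have h3 := Nat.sqrt_le' (5 * W.card)
      apply Real.le_sqrt_of_sq_le
      exact_mod_cast h3
    have h4 : Real.sqrt (5 * W.card) ≤ (9 / 4) * Real.sqrt W.card := by
      rw [Real.sqrt_le_left (by positivity), mul_pow, Real.sq_sqrt (Nat.cast_nonneg _)]
      have : (0 : ℝ) ≤ W.card := Nat.cast_nonneg _
      nlinarith
    have h5 : (1 : ℝ) ≤ Real.sqrt W.card := by
      rw [Real.one_le_sqrt]
      exact_mod_cast hW.card_pos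
    linarith
  · intro K hK' hKc
    have h1 := hT K hKc (by
      rw [Finset.disjoint_left]
      intro x hx hxS
      have := mem_sdiff.1 (hK' hx)
      exact this.2 (mem_inter.2 ⟨hxS, this.1⟩))
    rw [hsum, hsum, Finset.univ_inter] at h1
    rwa [Finset.inter_eq_left.2 (hK'.trans Finset.sdiff_subset)] at h1

/-- The bound on the number of touching edges used in the descent. -/
noncomputable def bd' (M : ℝ) (n : ℕ) : ℝ := 2 * n + 136 * (n / Real.sqrt (max n M))

theorem descend (hK : NoK5 G) (hI : Dual.Ix G s t) (M : ℝ) (hM : 28900 ≤ M) :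
    ∀ (n : ℕ) (W : Finset V), W.card = n → W.Nonempty → (et s t W : ℝ) < bd' M W.card →
      ∃ T : Finset V, T.Nonempty ∧ (T.card : ℝ) ≤ 2 * M ∧ (et s t T : ℝ) < bd' M T.card := by
  classical
  intro n
  induction n using Nat.strong_induction_on with
  | _ n ih =>
  intro W hn hW het
  by_cases hsmall : (W.card : ℝ) ≤ 2 * M
  · exact ⟨W, hW, hsmall, het⟩
  push Not at hsmall
  obtain ⟨S, hSW, hSc, hS⟩ := sepW hK W hW
  by_contra hcon
  have hall : ∀ K ⊆ W \ S, Conn G K → bd' M K.card ≤ et s t K := by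
    intro K hKs hKc
    by_contra hlt
    push Not at hlt
    have h1 := hS K hKs hKc
    have h2 : 0 < K.card := hKc.1.card_pos
    exact hcon (ih K.card (by omega) K rfl hKc.1 hlt)
  obtain ⟨r, hr⟩ : ∃ r, r = Real.sqrt W.card := ⟨_, rfl⟩
  have hr2 : r ^ 2 = W.card := by rw [hr]; exact Real.sq_sqrt (Nat.cast_nonneg _)
  have hr0 : 0 ≤ r := by rw [hr]; exact Real.sqrt_nonneg _
  have hr170 : 170 ≤ r := by nlinarith
  have hrpos : 0 < r := by linarith
  have hρ : ∀ K ⊆ W \ S, Conn G K → (2 + (952 / 5) / r) * K.card ≤ et s t K := by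
    intro K hKs hKc
    refine le_trans ?_ (hall K hKs hKc)
    unfold bd'
    have h1 : (2 : ℝ) * K.card ≤ W.card := by exact_mod_cast hS K hKs hKc
    have h2 : max (K.card : ℝ) M ≤ r ^ 2 / 2 := by
      rw [hr2]
      apply max_le <;> linarith
    have h3 : Real.sqrt (max (K.card : ℝ) M) ≤ 5 / 7 * r := by
      rw [Real.sqrt_le_left (by positivity)]
      nlinarith
    have h4 : 0 < Real.sqrt (max (K.card : ℝ) M) := by
      apply Real.sqrt_pos.2
      exact lt_of_lt_of_le (by linarith) (le_max_right _ _)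
    have h5 : (0 : ℝ) ≤ K.card := Nat.cast_nonneg _
    have h6 : (K.card : ℝ) / (5 / 7 * r) ≤ K.card / Real.sqrt (max (K.card : ℝ) M) :=
      div_le_div_of_nonneg_left h5 h4 h3
    have h7 : (2 + (952 / 5) / r) * (K.card : ℝ) = 2 * K.card + 136 * (K.card / (5 / 7 * r)) := by
      field_simp
      ring
    rw [h7]
    linarith
  have h1 := comp_sum hI _ _ hρ _ (W \ S) (Finset.Subset.refl _) rfl
  have h2 : (et s t (W \ S) : ℝ) ≤ et s t W := by
    exact_mod_cast et_mono s t Finset.sdiff_subset
  have h3 : ((W \ S).card : ℝ) = W.card - S.card := by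
    rw [Finset.card_sdiff_of_subset hSW, Nat.cast_sub (Finset.card_le_card hSW)]
  have h4 : bd' M W.card = 2 * r ^ 2 + 136 * r := by
    unfold bd'
    have h5 : max (W.card : ℝ) M = W.card := max_eq_left (by linarith)
    rw [h5, ← hr, ← hr2]
    field_simp
  rw [h3, ← hr2] at h1
  rw [h4] at het
  rw [← hr] at hSc
  have h5 : (2 + (952 / 5) / r) * (r ^ 2 - 17 * r) ≤ (2 + (952 / 5) / r) * (r ^ 2 - S.card) := by
    apply mul_le_mul_of_nonneg_left
    · linarith
    · positivity
  have h6 : (2 + (952 / 5) / r) * (r ^ 2 - 17 * r) = 2 * r ^ 2 + (952 / 5 - 34) * r - 17 * (952 / 5) := by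
    field_simp
    ring
  rw [h6] at h5
  nlinarith

/-- The number of vertices in the reducible configuration. -/
theorem exists_sparse [Nonempty V] (hK : NoK5 G) (hI : Dual.Ix G s t)
    (hB : Fintype.card B ≤ 2 * Fintype.card V) :
    ∃ T : Finset V, T.Nonempty ∧ T.card ≤ 3699200 ∧ (et s t T : ℝ) < 21 / 10 * T.card := by
  have hu : (et s t (univ : Finset V) : ℝ) < bd' 1849600 (univ : Finset V).card := by
    have h1 : et s t (univ : Finset V) ≤ 2 * Fintype.card V := by
      refine le_trans ?_ hB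
      unfold et
      exact (Finset.card_le_univ _)
    have h2 : (et s t (univ : Finset V) : ℝ) ≤ 2 * Fintype.card V := by exact_mod_cast h1
    have h3 : (0 : ℝ) < Fintype.card V := by exact_mod_cast Fintype.card_pos
    unfold bd'
    rw [Finset.card_univ]
    have h4 : 0 < Real.sqrt (max (Fintype.card V : ℝ) 1849600) := by
      apply Real.sqrt_pos.2
      exact lt_of_lt_of_le (by norm_num) (le_max_right _ _)
    have h5 : 0 < (Fintype.card V : ℝ) / Real.sqrt (max (Fintype.card V : ℝ) 1849600) :=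
      div_pos h3 h4
    linarith
  obtain ⟨T, hT, hTc, hTe⟩ := descend hK hI 1849600 (by norm_num) _ univ rfl univ_nonempty hu
  refine ⟨T, hT, ?_, ?_⟩
  · have : (T.card : ℝ) ≤ 3699200 := by linarith
    exact_mod_cast this
  · refine lt_of_lt_of_le hTe ?_
    unfold bd'
    have h1 : (1360 : ℝ) ≤ Real.sqrt (max (T.card : ℝ) 1849600) := by
      apply Real.le_sqrt_of_sq_le
      refine le_trans ?_ (le_max_right _ _)
      norm_num
    have h2 : (0 : ℝ) ≤ T.card := Nat.cast_nonneg _
    have h3 : (T.card : ℝ) / Real.sqrt (max (T.card : ℝ) 1849600) ≤ T.card / 1360 :=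
      div_le_div_of_nonneg_left h2 (by norm_num) h1
    linarith

end Pool.Agent.U396.Loc
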