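import Pool.Agent.U396.Dual

/-! Heavy independent sets in sparse parts of triangle-free plane graphs. -/

set_option autoImplicit false
set_option linter.unusedSectionVars false

namespace Pool.Agent.U396.WI

open Finset Pool.Agent.Helper531_Thick

variable {V B : Type} [Fintype V] [DecidableEq V] [Fintype B] [DecidableEq B]
  {G : SimpleGraph V} {s t : B → V}

theorem layer (s t : B → V) (κ : ℝ) (T : Finset V) (d : V → ℕ)
    (hsp : ∀ X ⊆ T, X.Nonempty →
      ((univ.filter (fun b => s b ∈ X ∧ t b ∈ X)).card : ℝ) + ∑ v ∈ X, (d v : ℝ) ≤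
        κ * X.card) :
    ∀ (n : ℕ) (z : V → ℝ), (∀ v, 0 ≤ z v) → (∀ v, v ∉ T → z v = 0) →
      (univ.filter (fun v => 0 < z v)).card = n →
      ∑ b, min (z (s b)) (z (t b)) + ∑ v ∈ T, d v * z v ≤ κ * ∑ v ∈ T, z v := by
  classical
  intro n
  induction n using Nat.strong_induction_on with
  | _ n ih =>
  intro z hz hzT hn
  obtain ⟨X, hX⟩ : ∃ X : Finset V, X = univ.filter (fun v => 0 < z v) := ⟨_, rfl⟩
  have hmem : ∀ v, v ∈ X ↔ 0 < z v := by
    intro v; rw [hX]; simp
  have hz0 : ∀ v, v ∉ X → z v = 0 := by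
    intro v hv
    rw [hmem] at hv
    exact le_antisymm (not_lt.1 hv) (hz v)
  rcases Finset.eq_empty_or_nonempty X with hXe | hXne
  · have hall : ∀ v, z v = 0 := by
      intro v
      apply hz0
      rw [hXe]
      simp
    simp [hall]
  have hXT : X ⊆ T := by
    intro v hv
    by_contra h
    rw [hmem, hzT v h] at hv
    exact lt_irrefl _ hv
  obtain ⟨v0, hv0, hmin⟩ := Finset.exists_min_image X z hXne
  obtain ⟨z', hz'⟩ : ∃ z' : V → ℝ, ∀ v, z' v = if v ∈ X then z v - z v0 else 0 := ⟨_, fun _ => rfl⟩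
  have hzz' : ∀ v, z v = z' v + z v0 * (if v ∈ X then 1 else 0) := by
    intro v
    rw [hz']
    split_ifs with h
    · ring
    · rw [hz0 v h]; ring
  have hz'0 : ∀ v, 0 ≤ z' v := by
    intro v
    rw [hz']
    split_ifs with h
    · linarith [hmin v h]
    · exact le_rfl
  have hz'T : ∀ v, v ∉ T → z' v = 0 := by
    intro v hv
    rw [hz', if_neg (fun h => hv (hXT h))]
  have hlt : (univ.filter (fun v => 0 < z' v)).card < n := by
    rw [← hn, ← hX]
    apply Finset.card_lt_card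
    refine Finset.ssubset_iff_subset_ne.2 ⟨?_, ?_⟩
    · intro v hv
      rw [mem_filter] at hv
      by_contra h
      have := hv.2
      rw [hz', if_neg h] at this
      exact lt_irrefl _ this
    · intro h
      rw [← h, mem_filter, hz' v0] at hv0
      have := hv0.2
      split_ifs at this <;> linarith
  have hI := ih _ hlt z' hz'0 hz'T rfl
  have hS := hsp X hXT hXne
  have h0 : 0 < z v0 := (hmem v0).1 hv0
  have e1 : ∑ b, min (z (s b)) (z (t b)) = ∑ b, min (z' (s b)) (z' (t b)) +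
      z v0 * ((univ.filter (fun b => s b ∈ X ∧ t b ∈ X)).card : ℝ) := by
    rw [Finset.card_filter, Nat.cast_sum, Finset.mul_sum, ← Finset.sum_add_distrib]
    refine Finset.sum_congr rfl fun b _ => ?_
    by_cases h1 : s b ∈ X <;> by_cases h2 : t b ∈ X
    · rw [if_pos ⟨h1, h2⟩, hz' (s b), hz' (t b), if_pos h1, if_pos h2, Nat.cast_one, mul_one,
        min_sub_sub_right]
      ring
    · rw [if_neg (by tauto), hz' (s b), hz' (t b), if_pos h1, if_neg h2, hz0 _ h2, Nat.cast_zero,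
        mul_zero, add_zero, min_eq_right (hz _), min_eq_right (by linarith [hmin _ h1])]
    · rw [if_neg (by tauto), hz' (s b), hz' (t b), if_neg h1, if_pos h2, hz0 _ h1, Nat.cast_zero,
        mul_zero, add_zero, min_eq_left (hz _), min_eq_left (by linarith [hmin _ h2])]
    · rw [if_neg (by tauto), hz' (s b), hz' (t b), if_neg h1, if_neg h2, hz0 _ h1, hz0 _ h2,
        Nat.cast_zero, mul_zero, add_zero]
  have e2 : ∑ v ∈ T, (d v : ℝ) * z v = ∑ v ∈ T, d v * z' v + z v0 * ∑ v ∈ X, (d v : ℝ) := by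
    have : ∑ v ∈ X, (d v : ℝ) = ∑ v ∈ T, (if v ∈ X then (d v : ℝ) else 0) := by
      rw [Finset.sum_ite_mem, Finset.inter_eq_right.2 hXT]
    rw [this, Finset.mul_sum, ← Finset.sum_add_distrib]
    refine Finset.sum_congr rfl fun v _ => ?_
    rw [hzz' v]
    split_ifs <;> ring
  have e3 : ∑ v ∈ T, z v = ∑ v ∈ T, z' v + z v0 * X.card := by
    have : (X.card : ℝ) = ∑ v ∈ T, (if v ∈ X then (1 : ℝ) else 0) := by
      rw [Finset.sum_ite_mem, Finset.inter_eq_right.2 hXT, Finset.sum_const, nsmul_eq_mul, mul_one]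
    rw [this, Finset.mul_sum, ← Finset.sum_add_distrib]
    refine Finset.sum_congr rfl fun v _ => ?_
    exact hzz' v
  rw [e1, e2, e3]
  nlinarith

theorem deg_le_two (s t : B → V) (T : Finset V) (d : V → ℕ)
    (hsp : ∀ X ⊆ T, X.Nonempty →
      ((univ.filter (fun b => s b ∈ X ∧ t b ∈ X)).card : ℝ) + ∑ v ∈ X, (d v : ℝ) ≤
        21 / 10 * X.card) : ∀ v ∈ T, d v ≤ 2 := by
  intro v hv
  have h1 := hsp {v} (Finset.singleton_subset_iff.2 hv) (Finset.singleton_nonempty v)
  rw [Finset.sum_singleton, Finset.card_singleton] at h1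
  have h2 : (0 : ℝ) ≤ (univ.filter (fun b => s b ∈ ({v} : Finset V) ∧
    t b ∈ ({v} : Finset V))).card := Nat.cast_nonneg _
  by_contra h
  have h3 : 3 ≤ d v := by omega
  have h4 : (3 : ℝ) ≤ d v := by exact_mod_cast h3
  norm_num at h1
  linarith

/-- **Heavy independent sets.** -/
theorem heavy (hI : Dual.Ix G s t) (hcov : ∀ u v, G.Adj u v → ∃ b, s(s b, t b) = s(u, v))
    (M : Model V B (Dual.Eh s t)) (hG : G.CliqueFree 3) (T : Finset V) (d : V → ℕ)
    (hsp : ∀ X ⊆ T, X.Nonempty →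
      ((univ.filter (fun b => s b ∈ X ∧ t b ∈ X)).card : ℝ) + ∑ v ∈ X, (d v : ℝ) ≤
        21 / 10 * X.card)
    (z : V → ℝ) (hz : ∀ v, 0 ≤ z v) (hzT : ∀ v, v ∉ T → z v = 0) :
    ∃ I ⊆ T, (∀ u ∈ I, ∀ v ∈ I, ¬ G.Adj u v) ∧
      ∑ v ∈ T, z v * (103 / 100 / (4 - d v)) ≤ ∑ v ∈ I, z v := by
  classical
  have hl := layer s t (21 / 10) T d hsp _ z hz hzT rfl
  -- at most two
  have hd2 := deg_le_two s t T d hsp
  -- the vertices with `d = 2` are independent
  have hD : ∀ u ∈ T, ∀ v ∈ T, d u = 2 → d v = 2 → ¬ G.Adj u v := by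
    intro u hu v hv hdu hdv huv
    have h1 := hsp {u, v} (by
      intro w hw
      rw [mem_insert, mem_singleton] at hw
      rcases hw with rfl | rfl <;> assumption) ⟨u, by simp⟩
    rw [Finset.sum_pair huv.ne, Finset.card_pair huv.ne, hdu, hdv] at h1
    obtain ⟨b, hb⟩ := hcov u v huv
    have h2 : 1 ≤ (univ.filter (fun b => s b ∈ ({u, v} : Finset V) ∧
        t b ∈ ({u, v} : Finset V))).card := by
      apply Finset.card_pos.2
      refine ⟨b, ?_⟩
      rw [mem_filter, mem_insert, mem_singleton, mem_insert, mem_singleton]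
      refine ⟨mem_univ _, ?_, ?_⟩
      · have : s b ∈ s(u, v) := by rw [← hb]; exact Sym2.mem_mk_left _ _
        rwa [Sym2.mem_iff] at this
      · have : t b ∈ s(u, v) := by rw [← hb]; exact Sym2.mem_mk_right _ _
        rwa [Sym2.mem_iff] at this
    have h3 : (1 : ℝ) ≤ (univ.filter (fun b => s b ∈ ({u, v} : Finset V) ∧
        t b ∈ ({u, v} : Finset V))).card := by exact_mod_cast h2
    push_cast at h1
    linarith
  obtain ⟨c, hc⟩ := Dual.bip hI M hG (fun b => min (z (s b)) (z (t b)))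
    (fun b => le_min (hz _) (hz _))
  obtain ⟨low, hlow⟩ : ∃ low : B → V, ∀ b, low b = if z (s b) ≤ z (t b) then s b else t b :=
    ⟨_, fun _ => rfl⟩
  have hlowz : ∀ b, z (low b) = min (z (s b)) (z (t b)) := by
    intro b
    rw [hlow]
    split_ifs with h
    · exact (min_eq_left h).symm
    · exact (min_eq_right (not_le.1 h).le).symm
  obtain ⟨R, hR⟩ : ∃ R : Finset V, R = (univ.filter (fun b => c (s b) = c (t b))).image low :=
    ⟨_, rfl⟩
  have hRz : ∑ v ∈ T ∩ R, z v ≤ (∑ b, min (z (s b)) (z (t b))) / 5 := by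
    refine le_trans ?_ hc
    refine (Finset.sum_le_sum_of_subset_of_nonneg Finset.inter_subset_right
      (fun v _ _ => hz v)).trans ?_
    rw [hR]
    refine (Finset.sum_image_le_of_nonneg (fun v _ => hz _)).trans ?_
    exact Finset.sum_le_sum fun b _ => (hlowz b).le
  -- the three candidates
  obtain ⟨I, hIdef⟩ : ∃ I : ZMod 2 → Finset V, ∀ i, I i = (T \ R).filter (fun v => c v = i) :=
    ⟨_, fun _ => rfl⟩
  have hIT : ∀ i, I i ⊆ T := by
    intro i
    rw [hIdef]
    exact (Finset.filter_subset _ _).trans Finset.sdiff_subset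
  have hIind : ∀ i, ∀ u ∈ I i, ∀ v ∈ I i, ¬ G.Adj u v := by
    intro i u hu v hv huv
    rw [hIdef, mem_filter, mem_sdiff] at hu hv
    obtain ⟨b, hb⟩ := hcov u v huv
    have h1 : (s b = u ∧ t b = v) ∨ (s b = v ∧ t b = u) := by
      rw [Sym2.eq_iff] at hb; exact hb
    have h2 : c (s b) = c (t b) := by
      rcases h1 with ⟨e1, e2⟩ | ⟨e1, e2⟩ <;> rw [e1, e2, hu.2, hv.2]
    have h3 : low b ∈ R := by
      rw [hR]
      exact mem_image_of_mem _ (mem_filter.2 ⟨mem_univ _, h2⟩)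
    have h4 : low b = u ∨ low b = v := by
      rw [hlow]
      split_ifs <;> rcases h1 with ⟨e1, e2⟩ | ⟨e1, e2⟩ <;> simp [e1, e2]
    rcases h4 with h4 | h4
    · rw [h4] at h3; exact hu.1.2 h3
    · rw [h4] at h3; exact hv.1.2 h3
  have hsum : ∑ v ∈ I 0, z v + ∑ v ∈ I 1, z v = ∑ v ∈ T, z v - ∑ v ∈ T ∩ R, z v := by
    have h1 : ∑ v ∈ I 0, z v + ∑ v ∈ I 1, z v = ∑ v ∈ T \ R, z v := by
      rw [hIdef, hIdef, ← Finset.sum_filter_add_sum_filter_not (T \ R) (fun v => c v = 0)]
      congr 1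
      apply Finset.sum_congr _ (fun _ _ => rfl)
      ext v
      simp only [mem_filter]
      have : ∀ a : ZMod 2, a = 1 ↔ ¬ a = 0 := by decide
      rw [this]
    rw [h1, eq_sub_iff_add_eq, add_comm]
    exact Finset.sum_inter_add_sum_sdiff T R z
  obtain ⟨D, hDdef⟩ : ∃ D : Finset V, D = T.filter (fun v => d v = 2) := ⟨_, rfl⟩
  have hDz : ∑ v ∈ D, z v = ∑ v ∈ T, z v * (if d v = 2 then 1 else 0) := by
    rw [hDdef, Finset.sum_filter]
    refine Finset.sum_congr rfl fun v _ => ?_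
    split_ifs <;> ring
  -- the target is below the convex combination
  have hgoal : ∑ v ∈ T, z v * (103 / 100 / (4 - d v)) ≤
      19 / 20 * ((∑ v ∈ I 0, z v + ∑ v ∈ I 1, z v) / 2) + 1 / 20 * ∑ v ∈ D, z v := by
    have h1 : ∑ v ∈ T, z v * (19 / 20 * ((29 / 10 + d v) / 10) + 1 / 20 *
        (if d v = 2 then 1 else 0)) ≤
        19 / 20 * ((∑ v ∈ I 0, z v + ∑ v ∈ I 1, z v) / 2) + 1 / 20 * ∑ v ∈ D, z v := by
      have h2 : ∑ v ∈ T, z v * (19 / 20 * ((29 / 10 + d v) / 10) + 1 / 20 *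
        (if d v = 2 then 1 else 0)) = 19 / 20 * (29 / 100 * ∑ v ∈ T, z v +
          1 / 10 * ∑ v ∈ T, d v * z v) + 1 / 20 * ∑ v ∈ D, z v := by
        rw [hDz, Finset.mul_sum, Finset.mul_sum, ← Finset.sum_add_distrib, Finset.mul_sum,
          Finset.mul_sum, ← Finset.sum_add_distrib]
        refine Finset.sum_congr rfl fun v _ => ?_
        ring
      rw [h2, hsum]
      linarith
    refine le_trans ?_ h1
    refine Finset.sum_le_sum fun v hv => ?_
    apply mul_le_mul_of_nonneg_left _ (hz v)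
    have h3 := hd2 v hv
    interval_cases h : d v <;> norm_num
  by_contra hcon
  push Not at hcon
  have g0 := hcon (I 0) (hIT 0) (hIind 0)
  have g1 := hcon (I 1) (hIT 1) (hIind 1)
  have gD := hcon D (by rw [hDdef]; exact Finset.filter_subset _ _) (by
    intro u hu v hv
    rw [hDdef, mem_filter] at hu hv
    exact hD u hu.1 v hv.1 hu.2 hv.2)
  linarith

end Pool.Agent.U396.WI
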