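import Pool.Agent.U396.NoK5
import Pool.Agent.U396.Loc
import Pool.Agent.U396.WI
import Pool.Agent.U396.Col

/-! Triangle-free planar graphs: `m`-fold list colouring from lists of size `4 m - e`. -/

set_option autoImplicit false
set_option linter.unusedSectionVars false

namespace Pool.Agent.U396.Main

open Finset Pool.Agent.Helper531_Thick Pool.Agent.U396.Draw

section conf

variable {V B : Type} [Fintype V] [DecidableEq V] [Fintype B] [DecidableEq B]
  {G : SimpleGraph V} {s t : B → V}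

/-- number of edges from `v` to the outside of `T` -/
def dg (s t : B → V) (T : Finset V) (v : V) : ℕ :=
  (univ.filter (fun b => s b = v ∧ t b ∉ T)).card + (univ.filter (fun b => t b = v ∧ s b ∉ T)).card

theorem sum_dg (s t : B → V) (T X : Finset V) :
    ∑ v ∈ X, dg s t T v = (univ.filter (fun b => s b ∈ X ∧ t b ∉ T)).card +
      (univ.filter (fun b => t b ∈ X ∧ s b ∉ T)).card := by
  unfold dg
  rw [Finset.sum_add_distrib]
  congr 1
  · rw [Finset.card_eq_sum_card_fiberwise (s := univ.filter (fun b => s b ∈ X ∧ t b ∉ T))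
      (f := s) (t := X) (fun b hb => by
        have := (Finset.mem_filter.1 (Finset.mem_coe.1 hb)).2.1
        exact Finset.mem_coe.2 this)]
    refine Finset.sum_congr rfl fun v hv => ?_
    congr 1
    ext b
    simp only [mem_filter, mem_univ, true_and]
    constructor
    · rintro ⟨rfl, h⟩; exact ⟨⟨hv, h⟩, rfl⟩
    · rintro ⟨⟨_, h⟩, rfl⟩; exact ⟨rfl, h⟩
  · rw [Finset.card_eq_sum_card_fiberwise (s := univ.filter (fun b => t b ∈ X ∧ s b ∉ T))
      (f := t) (t := X) (fun b hb => by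
        have := (Finset.mem_filter.1 (Finset.mem_coe.1 hb)).2.1
        exact Finset.mem_coe.2 this)]
    refine Finset.sum_congr rfl fun v hv => ?_
    congr 1
    ext b
    simp only [mem_filter, mem_univ, true_and]
    constructor
    · rintro ⟨rfl, h⟩; exact ⟨⟨hv, h⟩, rfl⟩
    · rintro ⟨⟨_, h⟩, rfl⟩; exact ⟨rfl, h⟩

/-- the reducible configuration -/
theorem exists_conf [Nonempty V] (hP : Pl G) (hG : G.CliqueFree 3) (hI : Dual.Ix G s t) :
    ∃ T : Finset V, T.Nonempty ∧ T.card ≤ 3699200 ∧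
      ∀ X ⊆ T, X.Nonempty → ((univ.filter (fun b => s b ∈ X ∧ t b ∈ X)).card : ℝ) +
        ∑ v ∈ X, (dg s t T v : ℝ) ≤ 21 / 10 * X.card := by
  classical
  obtain ⟨M⟩ := exists_model' hP hI
  obtain ⟨T0, hT0, hT0c, hT0e⟩ := Loc.exists_sparse (noK5 hP) hI (Dual.edge_bound M hI hG).le
  let P : Finset V → Prop := fun T => T.Nonempty ∧ T.card ≤ 3699200 ∧
    (Loc.et s t T : ℝ) < 21 / 10 * T.card
  obtain ⟨T, hT, hmin⟩ := Finset.exists_min_image (univ.filter P) Finset.card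
    ⟨T0, by rw [mem_filter]; exact ⟨mem_univ _, hT0, hT0c, hT0e⟩⟩
  rw [mem_filter] at hT
  obtain ⟨-, hTne, hTc, hTe⟩ := hT
  refine ⟨T, hTne, hTc, ?_⟩
  intro X hX hXne
  have h1 : 21 / 10 * ((T \ X).card : ℝ) ≤ Loc.et s t (T \ X) := by
    rcases Finset.eq_empty_or_nonempty (T \ X) with h | h
    · rw [h]; simp
    · by_contra hlt
      push Not at hlt
      have h2 : (T \ X).card < T.card := by
        apply Finset.card_lt_card
        refine Finset.ssubset_iff_subset_ne.2 ⟨Finset.sdiff_subset, ?_⟩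
        intro h2
        obtain ⟨x, hx⟩ := hXne
        have h3 : x ∈ T \ X := by rw [h2]; exact hX hx
        exact (mem_sdiff.1 h3).2 hx
      have h3 := hmin (T \ X) (by
        rw [mem_filter]
        exact ⟨mem_univ _, h, h2.le.trans hTc, hlt⟩)
      omega
  have h2 : (univ.filter (fun b => s b ∈ X ∧ t b ∈ X)).card + ∑ v ∈ X, dg s t T v +
      Loc.et s t (T \ X) ≤ Loc.et s t T := by
    rw [sum_dg]
    unfold Loc.et
    simp only [Finset.card_filter]
    rw [← Finset.sum_add_distrib, ← Finset.sum_add_distrib, ← Finset.sum_add_distrib]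
    refine Finset.sum_le_sum fun b _ => ?_
    simp only [mem_sdiff]
    by_cases a1 : s b ∈ X <;> by_cases a2 : t b ∈ X <;> by_cases a3 : s b ∈ T <;>
      by_cases a4 : t b ∈ T
    all_goals first
      | exact absurd (hX a1) a3
      | exact absurd (hX a2) a4
      | simp [a1, a2, a3, a4]
  have h3 : ((T \ X).card : ℝ) = T.card - X.card := by
    rw [Finset.card_sdiff_of_subset hX, Nat.cast_sub (Finset.card_le_card hX)]
  have h4 : ((univ.filter (fun b => s b ∈ X ∧ t b ∈ X)).card : ℝ) +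
      ∑ v ∈ X, (dg s t T v : ℝ) + Loc.et s t (T \ X) ≤ Loc.et s t T := by
    exact_mod_cast h2
  rw [h3] at h1
  linarith

end conf

/-! ### numerical facts -/

theorem num1 : (1 : ℝ) < (49 / 50) ^ 101 / (2449 / 2500) ^ 100 := by
  rw [one_lt_div (by positivity)]
  norm_num

/-- the threshold -/
theorem exists_m0 : ∃ m0 : ℕ, ∀ m ≥ m0,
    (3699200 : ℝ) ^ 100 < ((49 / 50) ^ 101 / (2449 / 2500) ^ 100) ^ m := by
  obtain ⟨m0, h⟩ := pow_unbounded_of_one_lt ((3699200 : ℝ) ^ 100) num1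
  exact ⟨m0, fun m hm => lt_of_lt_of_le h (pow_le_pow_right₀ num1.le hm)⟩

theorem num2 (d : ℕ) (hd : d ≤ 2) :
    (49 / 50 : ℝ) ≤ 1 - 1 / 50 * (103 / 100 / (4 - d)) ∧
    (1 - 1 / 50 * (103 / 100 / (4 - d)) : ℝ) ≤ 1 ∧
      (1 - 1 / 50 * (103 / 100 / (4 - d)) : ℝ) ^ (4 - d) ≤ 2449 / 2500 := by
  interval_cases d <;> norm_num

theorem num3 {m e cnt l d N : ℕ} (hd : d ≤ 2) (hl : (4 - d) * m ≤ l + e) (he : 100 * e ≤ m)
    (hN : N ≤ 3699200)
    (hm : (3699200 : ℝ) ^ 100 < ((49 / 50) ^ 101 / (2449 / 2500) ^ 100) ^ m)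
    (hc : (1 - 1 / 50 : ℝ) ^ cnt ≤ N * (1 - 1 / 50 * (103 / 100 / (4 - d))) ^ l) : m ≤ cnt := by
  by_contra hlt
  push Not at hlt
  obtain ⟨h1, h2, h3⟩ := num2 d hd
  obtain ⟨q, hq⟩ : ∃ q : ℝ, q = 1 - 1 / 50 * (103 / 100 / (4 - d)) := ⟨_, rfl⟩
  rw [← hq] at h1 h2 h3 hc
  have hq0 : 0 ≤ q := by linarith
  have e1 : q ^ (l + e) ≤ (2449 / 2500 : ℝ) ^ m := by
    calc q ^ (l + e) ≤ q ^ ((4 - d) * m) := pow_le_pow_of_le_one hq0 h2 hl
      _ = (q ^ (4 - d)) ^ m := pow_mul _ _ _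
      _ ≤ _ := pow_le_pow_left₀ (pow_nonneg hq0 _) h3 m
  have e2 : (49 / 50 : ℝ) ^ (m + e) ≤ 3699200 * (2449 / 2500 : ℝ) ^ m := by
    calc (49 / 50 : ℝ) ^ (m + e) ≤ (49 / 50 : ℝ) ^ (cnt + e) :=
          pow_le_pow_of_le_one (by norm_num) (by norm_num) (by omega)
      _ = (49 / 50 : ℝ) ^ cnt * (49 / 50 : ℝ) ^ e := pow_add _ _ _
      _ ≤ (N * q ^ l) * q ^ e := by
          apply mul_le_mul
          · refine le_trans (le_of_eq ?_) hc
            norm_num
          · exact pow_le_pow_left₀ (by norm_num) h1 e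
          · positivity
          · positivity
      _ = N * q ^ (l + e) := by rw [pow_add]; ring
      _ ≤ 3699200 * (2449 / 2500 : ℝ) ^ m := by
          apply mul_le_mul
          · exact_mod_cast hN
          · exact e1
          · positivity
          · positivity
  have e3 : ((49 / 50 : ℝ) ^ 101) ^ m ≤ 3699200 ^ 100 * ((2449 / 2500 : ℝ) ^ 100) ^ m := by
    calc ((49 / 50 : ℝ) ^ 101) ^ m = (49 / 50 : ℝ) ^ (101 * m) := (pow_mul _ _ _).symm
      _ ≤ (49 / 50 : ℝ) ^ ((m + e) * 100) :=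
          pow_le_pow_of_le_one (by norm_num) (by norm_num) (by omega)
      _ = ((49 / 50 : ℝ) ^ (m + e)) ^ 100 := pow_mul _ _ _
      _ ≤ (3699200 * (2449 / 2500 : ℝ) ^ m) ^ 100 := pow_le_pow_left₀ (by positivity) e2 100
      _ = 3699200 ^ 100 * ((2449 / 2500 : ℝ) ^ 100) ^ m := by
          rw [mul_pow, ← pow_mul, ← pow_mul, mul_comm m 100]
  rw [div_pow, lt_div_iff₀ (by positivity)] at hm
  linarith

/-- one step of the induction -/
theorem step {V : Type} [Fintype V] [DecidableEq V] [Nonempty V] (G : SimpleGraph V)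
    (hP : Pl G) (hG : G.CliqueFree 3) :
    ∃ T : Finset V, T.Nonempty ∧ ∀ (m e : ℕ), 100 * e ≤ m →
      (3699200 : ℝ) ^ 100 < ((49 / 50) ^ 101 / (2449 / 2500) ^ 100) ^ m →
      ∀ (L f : V → Finset ℕ), (∀ v, 4 * m ≤ (L v).card + e) → (∀ v, (f v).card ≤ m) →
        ∃ g : V → Finset ℕ, (∀ v ∈ T, g v ⊆ L v ∧ (g v).card = m) ∧
          (∀ u ∈ T, ∀ v ∈ T, G.Adj u v → Disjoint (g u) (g v)) ∧
          (∀ u ∈ T, ∀ v, v ∉ T → G.Adj u v → Disjoint (g u) (f v)) := by
  classical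
  let B := G.edgeSet
  let s : B → V := fun b => (Quot.out b.1).1
  let t : B → V := fun b => (Quot.out b.1).2
  have hst : ∀ b : B, s(s b, t b) = b.1 := fun b => Quot.out_eq b.1
  have hI : Dual.Ix G s t := by
    refine ⟨?_, ?_⟩
    · intro b
      rw [← SimpleGraph.mem_edgeSet, hst]
      exact b.2
    · intro b b' h
      rw [hst, hst] at h
      exact Subtype.ext h
  have hcov : ∀ u v, G.Adj u v → ∃ b, s(s b, t b) = s(u, v) := by
    intro u v huv
    exact ⟨⟨s(u, v), huv⟩, hst _⟩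
  obtain ⟨T, hTne, hTc, hsp⟩ := exists_conf hP hG hI
  obtain ⟨M⟩ := exists_model' hP hI
  have hd2 := WI.deg_le_two s t T (dg s t T) hsp
  refine ⟨T, hTne, ?_⟩
  intro m e he hm L f hL hf
  obtain ⟨L', hL'⟩ : ∃ L' : V → Finset ℕ, ∀ v, L' v =
      L v \ ((univ.filter (fun b => s b = v ∧ t b ∉ T)).biUnion (fun b => f (t b)) ∪
        (univ.filter (fun b => t b = v ∧ s b ∉ T)).biUnion (fun b => f (s b))) :=
    ⟨_, fun _ => rfl⟩
  have hL'c : ∀ v, (L v).card ≤ (L' v).card + dg s t T v * m := by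
    intro v
    have h1 : ((univ.filter (fun b => s b = v ∧ t b ∉ T)).biUnion (fun b => f (t b)) ∪
        (univ.filter (fun b => t b = v ∧ s b ∉ T)).biUnion (fun b => f (s b))).card ≤
        dg s t T v * m := by
      refine (Finset.card_union_le _ _).trans ?_
      unfold dg
      rw [add_mul]
      apply add_le_add
      · exact Finset.card_biUnion_le_card_mul _ _ _ (fun b _ => hf _)
      · exact Finset.card_biUnion_le_card_mul _ _ _ (fun b _ => hf _)
    have h2 := Finset.le_card_sdiff ((univ.filter (fun b => s b = v ∧ t b ∉ T)).biUnion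
        (fun b => f (t b)) ∪ (univ.filter (fun b => t b = v ∧ s b ∉ T)).biUnion
        (fun b => f (s b))) (L v)
    rw [← hL'] at h2
    omega
  obtain ⟨I, hInd, hcnt⟩ := Col.counts T (fun I => ∀ u ∈ I, ∀ v ∈ I, ¬ G.Adj u v)
    (fun v => 103 / 100 / (4 - (dg s t T v : ℝ))) (1 / 50) (by norm_num) (by norm_num)
    (by
      intro v hv
      have := (num2 _ (hd2 v hv)).1
      linarith)
    (fun z hz hzT => WI.heavy hI hcov M hG T (dg s t T) hsp z hz hzT) L'
  have hcm : ∀ v ∈ T, m ≤ ((L' v).filter (fun c => v ∈ I c)).card := by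
    intro v hv
    refine num3 (hd2 v hv) ?_ he hTc hm (hcnt v hv)
    have h1 := hL'c v
    have h2 := hL v
    have h3 := hd2 v hv
    have h4 : (4 - dg s t T v) * m = 4 * m - dg s t T v * m := Nat.sub_mul _ _ _
    omega
  have hg : ∀ v, ∃ g : Finset ℕ, v ∈ T → g ⊆ (L' v).filter (fun c => v ∈ I c) ∧ g.card = m := by
    intro v
    by_cases hv : v ∈ T
    · obtain ⟨g, hg⟩ := Finset.exists_subset_card_eq (hcm v hv)
      exact ⟨g, fun _ => hg⟩
    · exact ⟨∅, fun h => absurd h hv⟩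
  choose g hg using hg
  refine ⟨g, ?_, ?_, ?_⟩
  · intro v hv
    refine ⟨?_, (hg v hv).2⟩
    refine (hg v hv).1.trans ((Finset.filter_subset _ _).trans ?_)
    rw [hL']
    exact Finset.sdiff_subset
  · intro u hu v hv huv
    rw [Finset.disjoint_left]
    intro c hcu hcv
    have h1 := mem_filter.1 ((hg u hu).1 hcu)
    have h2 := mem_filter.1 ((hg v hv).1 hcv)
    exact hInd c (mem_biUnion.2 ⟨u, hu, h1.1⟩) u h1.2 v h2.2 huv
  · intro u hu v hv huv
    rw [Finset.disjoint_left]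
    intro c hcu hcv
    have h1 := (mem_filter.1 ((hg u hu).1 hcu)).1
    rw [hL', mem_sdiff] at h1
    apply h1.2
    obtain ⟨b, hb⟩ := hcov u v huv
    rw [Sym2.eq_iff] at hb
    rw [mem_union, mem_biUnion, mem_biUnion]
    rcases hb with ⟨e1, e2⟩ | ⟨e1, e2⟩
    · left
      exact ⟨b, mem_filter.2 ⟨mem_univ _, e1, by rw [e2]; exact hv⟩, by rw [e2]; exact hcv⟩
    · right
      exact ⟨b, mem_filter.2 ⟨mem_univ _, e2, by rw [e1]; exact hv⟩, by rw [e1]; exact hcv⟩

/-- **Main theorem**, induction. -/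
theorem main_ind (m e : ℕ) (he : 100 * e ≤ m)
    (hm : (3699200 : ℝ) ^ 100 < ((49 / 50) ^ 101 / (2449 / 2500) ^ 100) ^ m) :
    ∀ (n : ℕ) (V : Type) [Fintype V] (G : SimpleGraph V), Fintype.card V = n →
      G.CliqueFree 3 → Pl G → ∀ L : V → Finset ℕ, (∀ v, 4 * m ≤ (L v).card + e) →
        ∃ f : V → Finset ℕ, (∀ v, f v ⊆ L v ∧ (f v).card = m) ∧
          ∀ u v, G.Adj u v → Disjoint (f u) (f v) := by
  intro n
  induction n using Nat.strong_induction_on with
  | _ n ih =>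
  intro V _ G hn hG hP L hL
  classical
  rcases isEmpty_or_nonempty V with hV | hV
  · exact ⟨fun _ => ∅, fun v => isEmptyElim v, fun u => isEmptyElim u⟩
  obtain ⟨T, hTne, hT⟩ := step G hP hG
  let W := {v : V // v ∉ T}
  have hcard : Fintype.card W < n := by
    rw [← hn]
    obtain ⟨x, hx⟩ := hTne
    exact Fintype.card_subtype_lt (x := x) (fun h => h hx)
  have hP' : Pl (G.comap (Subtype.val : W → V)) :=
    hP.comap Subtype.val Subtype.val_injective _ (fun u v h => h)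
  have hG' : (G.comap (Subtype.val : W → V)).CliqueFree 3 :=
    hG.comap ⟨(SimpleGraph.Embedding.comap ⟨Subtype.val, Subtype.val_injective⟩ G).toCopy⟩
  obtain ⟨f0, hf0, hf0d⟩ := ih _ hcard W (G.comap (Subtype.val : W → V)) rfl hG' hP'
    (fun v => L v.1) (fun v => hL v.1)
  obtain ⟨f, hf⟩ : ∃ f : V → Finset ℕ, ∀ v, f v = if h : v ∉ T then f0 ⟨v, h⟩ else ∅ :=
    ⟨_, fun _ => rfl⟩
  have hf1 : ∀ v (h : v ∉ T), f v = f0 ⟨v, h⟩ := by
    intro v h
    rw [hf, dif_pos h]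
  obtain ⟨g, hg1, hg2, hg3⟩ := hT m e he hm L f hL (by
    intro v
    by_cases h : v ∉ T
    · rw [hf1 v h, (hf0 _).2]
    · rw [hf, dif_neg h]; simp)
  refine ⟨fun v => if v ∈ T then g v else f v, ?_, ?_⟩
  · intro v
    by_cases h : v ∈ T
    · simp only [h, if_true]
      exact hg1 v h
    · simp only [h, if_false]
      rw [hf1 v h]
      exact hf0 ⟨v, h⟩
  · intro u v huv
    by_cases hu : u ∈ T <;> by_cases hv : v ∈ T
    · simp only [hu, hv, if_true]
      exact hg2 u hu v hv huv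
    · simp only [hu, hv, if_true, if_false]
      exact hg3 u hu v hv huv
    · simp only [hu, hv, if_true, if_false]
      exact (hg3 v hv u hu huv.symm).symm
    · simp only [hu, hv, if_false]
      rw [hf1 u hu, hf1 v hv]
      exact hf0d ⟨u, hu⟩ ⟨v, hv⟩ huv

/-- **Main theorem.** -/
theorem main : ∃ m0 : ℕ, ∀ m ≥ m0, ∀ e : ℕ, 100 * e ≤ m →
    ∀ (V : Type) [Fintype V] (G : SimpleGraph V),
      G.CliqueFree 3 → Pl G → ∀ L : V → Finset ℕ, (∀ v, 4 * m ≤ (L v).card + e) →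
        ∃ f : V → Finset ℕ, (∀ v, f v ⊆ L v ∧ (f v).card = m) ∧
          ∀ u v, G.Adj u v → Disjoint (f u) (f v) := by
  obtain ⟨m0, h⟩ := exists_m0
  refine ⟨m0, ?_⟩
  intro m hm e he V _ G hG hP L hL
  exact main_ind m e he (h m hm) _ V G rfl hG hP L hL

end Pool.Agent.U396.Main
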