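import Pool.Agent.U396.Main

/-! The main theorem with general parameters: better constants for large `m`. -/

set_option autoImplicit false
set_option linter.unusedSectionVars false

namespace Pool.Agent.U396.Asym

open Finset Pool.Agent.Helper531_Thick Pool.Agent.Helper770.Sep Pool.Agent.U396.Draw Pool.Agent.U396.Main

section conf

variable {V B : Type} [Fintype V] [DecidableEq V] [Fintype B] [DecidableEq B]
  {G : SimpleGraph V} {s t : B → V}

/-- sparse bounded sets -/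
theorem exists_sparse' [Nonempty V] (hK : NoK5 G) (hI : Dual.Ix G s t)
    (hB : Fintype.card B ≤ 2 * Fintype.card V) (q : ℕ) (hq : 170 ≤ q) :
    ∃ T : Finset V, T.Nonempty ∧ T.card ≤ 2 * q ^ 2 ∧
      (Loc.et s t T : ℝ) < (2 + 136 / q) * T.card := by
  have hq' : (170 : ℝ) ≤ q := by exact_mod_cast hq
  have hM : (28900 : ℝ) ≤ (q : ℝ) ^ 2 := by nlinarith
  have hu : (Loc.et s t (univ : Finset V) : ℝ) < Loc.bd' ((q : ℝ) ^ 2) (univ : Finset V).card := by
    have h1 : Loc.et s t (univ : Finset V) ≤ 2 * Fintype.card V := by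
      refine le_trans ?_ hB
      unfold Loc.et
      exact (Finset.card_le_univ _)
    have h2 : (Loc.et s t (univ : Finset V) : ℝ) ≤ 2 * Fintype.card V := by exact_mod_cast h1
    have h3 : (0 : ℝ) < Fintype.card V := by exact_mod_cast Fintype.card_pos
    unfold Loc.bd'
    rw [Finset.card_univ]
    have h4 : 0 < Real.sqrt (max (Fintype.card V : ℝ) ((q : ℝ) ^ 2)) := by
      apply Real.sqrt_pos.2
      exact lt_of_lt_of_le (by linarith) (le_max_right _ _)
    have h5 : 0 < (Fintype.card V : ℝ) / Real.sqrt (max (Fintype.card V : ℝ) ((q : ℝ) ^ 2)) :=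
      div_pos h3 h4
    linarith
  obtain ⟨T, hT, hTc, hTe⟩ := Loc.descend hK hI ((q : ℝ) ^ 2) hM _ univ rfl univ_nonempty hu
  refine ⟨T, hT, ?_, ?_⟩
  · exact_mod_cast hTc
  · refine lt_of_lt_of_le hTe ?_
    unfold Loc.bd'
    have h1 : (q : ℝ) ≤ Real.sqrt (max (T.card : ℝ) ((q : ℝ) ^ 2)) := by
      apply Real.le_sqrt_of_sq_le
      exact le_max_right _ _
    have h2 : (0 : ℝ) ≤ T.card := Nat.cast_nonneg _
    have h3 : (T.card : ℝ) / Real.sqrt (max (T.card : ℝ) ((q : ℝ) ^ 2)) ≤ T.card / q :=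
      div_le_div_of_nonneg_left h2 (by linarith) h1
    have h4 : (2 + 136 / (q : ℝ)) * T.card = 2 * T.card + 136 * (T.card / q) := by ring
    rw [h4]
    linarith

/-- the reducible configuration -/
theorem exists_conf' [Nonempty V] (hP : Pl G) (hG : G.CliqueFree 3) (hI : Dual.Ix G s t)
    (q : ℕ) (hq : 170 ≤ q) :
    ∃ T : Finset V, T.Nonempty ∧ T.card ≤ 2 * q ^ 2 ∧
      ∀ X ⊆ T, X.Nonempty → ((univ.filter (fun b => s b ∈ X ∧ t b ∈ X)).card : ℝ) +
        ∑ v ∈ X, (dg s t T v : ℝ) ≤ (2 + 136 / q) * X.card := by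
  classical
  obtain ⟨M⟩ := exists_model' hP hI
  obtain ⟨T0, hT0, hT0c, hT0e⟩ := exists_sparse' (noK5 hP) hI (Dual.edge_bound M hI hG).le q hq
  let P : Finset V → Prop := fun T => T.Nonempty ∧ T.card ≤ 2 * q ^ 2 ∧
    (Loc.et s t T : ℝ) < (2 + 136 / q) * T.card
  obtain ⟨T, hT, hmin⟩ := Finset.exists_min_image (univ.filter P) Finset.card
    ⟨T0, by rw [mem_filter]; exact ⟨mem_univ _, hT0, hT0c, hT0e⟩⟩
  rw [mem_filter] at hT
  obtain ⟨-, hTne, hTc, hTe⟩ := hT
  refine ⟨T, hTne, hTc, ?_⟩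
  intro X hX hXne
  have h1 : (2 + 136 / q) * ((T \ X).card : ℝ) ≤ Loc.et s t (T \ X) := by
    rcases Finset.eq_empty_or_nonempty (T \ X) with h | h
    · rw [h]; simp
    · by_contra hlt
      push Not at hlt
      have h2 : (T \ X).card < T.card := by
        apply Finset.card_lt_card
        refine Finset.ssubset_iff_subset_ne.2 ⟨Finset.sdiff_subset, ?_⟩
        intro h2
        obtain ⟨x, hx⟩ := hXne
        have h3 : x ∈ T \ X := by rw [h2]; exact hX hx
        exact (mem_sdiff.1 h3).2 hx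
      have h3 := hmin (T \ X) (by
        rw [mem_filter]
        exact ⟨mem_univ _, h, h2.le.trans hTc, hlt⟩)
      omega
  have h2 : (univ.filter (fun b => s b ∈ X ∧ t b ∈ X)).card + ∑ v ∈ X, dg s t T v +
      Loc.et s t (T \ X) ≤ Loc.et s t T := by
    rw [sum_dg]
    unfold Loc.et
    simp only [Finset.card_filter]
    rw [← Finset.sum_add_distrib, ← Finset.sum_add_distrib, ← Finset.sum_add_distrib]
    refine Finset.sum_le_sum fun b _ => ?_
    simp only [mem_sdiff]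
    by_cases a1 : s b ∈ X <;> by_cases a2 : t b ∈ X <;> by_cases a3 : s b ∈ T <;>
      by_cases a4 : t b ∈ T
    all_goals first
      | exact absurd (hX a1) a3
      | exact absurd (hX a2) a4
      | simp [a1, a2, a3, a4]
  have h3 : ((T \ X).card : ℝ) = T.card - X.card := by
    rw [Finset.card_sdiff_of_subset hX, Nat.cast_sub (Finset.card_le_card hX)]
  have h4 : ((univ.filter (fun b => s b ∈ X ∧ t b ∈ X)).card : ℝ) +
      ∑ v ∈ X, (dg s t T v : ℝ) + Loc.et s t (T \ X) ≤ Loc.et s t T := by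
    exact_mod_cast h2
  rw [h3, mul_sub] at h1
  linarith

theorem deg_le_two' (s t : B → V) (T : Finset V) (d : V → ℕ) (κ : ℝ) (hκ : κ < 5 / 2)
    (hsp : ∀ X ⊆ T, X.Nonempty →
      ((univ.filter (fun b => s b ∈ X ∧ t b ∈ X)).card : ℝ) + ∑ v ∈ X, (d v : ℝ) ≤
        κ * X.card) : ∀ v ∈ T, d v ≤ 2 := by
  intro v hv
  have h1 := hsp {v} (Finset.singleton_subset_iff.2 hv) (Finset.singleton_nonempty v)
  rw [Finset.sum_singleton, Finset.card_singleton] at h1
  have h2 : (0 : ℝ) ≤ (univ.filter (fun b => s b ∈ ({v} : Finset V) ∧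
    t b ∈ ({v} : Finset V))).card := Nat.cast_nonneg _
  by_contra h
  have h3 : 3 ≤ d v := by omega
  have h4 : (3 : ℝ) ≤ d v := by exact_mod_cast h3
  norm_num at h1
  linarith

/-- the guaranteed probabilities -/
noncomputable def pp (κ l : ℝ) (d : ℕ) : ℝ := (1 - l) * ((5 - κ + d) / 10) + (if d = 2 then l else 0)

/-- **Heavy independent sets.** -/
theorem heavy' (hI : Dual.Ix G s t) (hcov : ∀ u v, G.Adj u v → ∃ b, s(s b, t b) = s(u, v))
    (M : Model V B (Dual.Eh s t)) (hG : G.CliqueFree 3) (T : Finset V) (d : V → ℕ)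
    (κ l : ℝ) (hκ : κ < 5 / 2) (hl0 : 0 ≤ l) (hl1 : l ≤ 1)
    (hsp : ∀ X ⊆ T, X.Nonempty →
      ((univ.filter (fun b => s b ∈ X ∧ t b ∈ X)).card : ℝ) + ∑ v ∈ X, (d v : ℝ) ≤
        κ * X.card)
    (z : V → ℝ) (hz : ∀ v, 0 ≤ z v) (hzT : ∀ v, v ∉ T → z v = 0) :
    ∃ I ⊆ T, (∀ u ∈ I, ∀ v ∈ I, ¬ G.Adj u v) ∧
      ∑ v ∈ T, z v * pp κ l (d v) ≤ ∑ v ∈ I, z v := by
  classical
  have hl := WI.layer s t κ T d hsp _ z hz hzT rfl
  -- the vertices with `d = 2` are independent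
  have hD : ∀ u ∈ T, ∀ v ∈ T, d u = 2 → d v = 2 → ¬ G.Adj u v := by
    intro u hu v hv hdu hdv huv
    have h1 := hsp {u, v} (by
      intro w hw
      rw [mem_insert, mem_singleton] at hw
      rcases hw with rfl | rfl <;> assumption) ⟨u, by simp⟩
    rw [Finset.sum_pair huv.ne, Finset.card_pair huv.ne, hdu, hdv] at h1
    obtain ⟨b, hb⟩ := hcov u v huv
    have h2 : 1 ≤ (univ.filter (fun b => s b ∈ ({u, v} : Finset V) ∧
        t b ∈ ({u, v} : Finset V))).card := by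
      apply Finset.card_pos.2
      refine ⟨b, ?_⟩
      rw [mem_filter, mem_insert, mem_singleton, mem_insert, mem_singleton]
      refine ⟨mem_univ _, ?_, ?_⟩
      · have : s b ∈ s(u, v) := by rw [← hb]; exact Sym2.mem_mk_left _ _
        rwa [Sym2.mem_iff] at this
      · have : t b ∈ s(u, v) := by rw [← hb]; exact Sym2.mem_mk_right _ _
        rwa [Sym2.mem_iff] at this
    have h3 : (1 : ℝ) ≤ (univ.filter (fun b => s b ∈ ({u, v} : Finset V) ∧
        t b ∈ ({u, v} : Finset V))).card := by exact_mod_cast h2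
    push_cast at h1
    linarith
  obtain ⟨c, hc⟩ := Dual.bip hI M hG (fun b => min (z (s b)) (z (t b)))
    (fun b => le_min (hz _) (hz _))
  obtain ⟨low, hlow⟩ : ∃ low : B → V, ∀ b, low b = if z (s b) ≤ z (t b) then s b else t b :=
    ⟨_, fun _ => rfl⟩
  have hlowz : ∀ b, z (low b) = min (z (s b)) (z (t b)) := by
    intro b
    rw [hlow]
    split_ifs with h
    · exact (min_eq_left h).symm
    · exact (min_eq_right (not_le.1 h).le).symm
  obtain ⟨R, hR⟩ : ∃ R : Finset V, R = (univ.filter (fun b => c (s b) = c (t b))).image low :=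
    ⟨_, rfl⟩
  have hRz : ∑ v ∈ T ∩ R, z v ≤ (∑ b, min (z (s b)) (z (t b))) / 5 := by
    refine le_trans ?_ hc
    refine (Finset.sum_le_sum_of_subset_of_nonneg Finset.inter_subset_right
      (fun v _ _ => hz v)).trans ?_
    rw [hR]
    refine (Finset.sum_image_le_of_nonneg (fun v _ => hz _)).trans ?_
    exact Finset.sum_le_sum fun b _ => (hlowz b).le
  -- the three candidates
  obtain ⟨I, hIdef⟩ : ∃ I : ZMod 2 → Finset V, ∀ i, I i = (T \ R).filter (fun v => c v = i) :=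
    ⟨_, fun _ => rfl⟩
  have hIT : ∀ i, I i ⊆ T := by
    intro i
    rw [hIdef]
    exact (Finset.filter_subset _ _).trans Finset.sdiff_subset
  have hIind : ∀ i, ∀ u ∈ I i, ∀ v ∈ I i, ¬ G.Adj u v := by
    intro i u hu v hv huv
    rw [hIdef, mem_filter, mem_sdiff] at hu hv
    obtain ⟨b, hb⟩ := hcov u v huv
    have h1 : (s b = u ∧ t b = v) ∨ (s b = v ∧ t b = u) := by
      rw [Sym2.eq_iff] at hb; exact hb
    have h2 : c (s b) = c (t b) := by
      rcases h1 with ⟨e1, e2⟩ | ⟨e1, e2⟩ <;> rw [e1, e2, hu.2, hv.2]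
    have h3 : low b ∈ R := by
      rw [hR]
      exact mem_image_of_mem _ (mem_filter.2 ⟨mem_univ _, h2⟩)
    have h4 : low b = u ∨ low b = v := by
      rw [hlow]
      split_ifs <;> rcases h1 with ⟨e1, e2⟩ | ⟨e1, e2⟩ <;> simp [e1, e2]
    rcases h4 with h4 | h4
    · rw [h4] at h3; exact hu.1.2 h3
    · rw [h4] at h3; exact hv.1.2 h3
  have hsum : ∑ v ∈ I 0, z v + ∑ v ∈ I 1, z v = ∑ v ∈ T, z v - ∑ v ∈ T ∩ R, z v := by
    have h1 : ∑ v ∈ I 0, z v + ∑ v ∈ I 1, z v = ∑ v ∈ T \ R, z v := by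
      rw [hIdef, hIdef, ← Finset.sum_filter_add_sum_filter_not (T \ R) (fun v => c v = 0)]
      congr 1
      apply Finset.sum_congr _ (fun _ _ => rfl)
      ext v
      simp only [mem_filter]
      have : ∀ a : ZMod 2, a = 1 ↔ ¬ a = 0 := by decide
      rw [this]
    rw [h1, eq_sub_iff_add_eq, add_comm]
    exact Finset.sum_inter_add_sum_sdiff T R z
  obtain ⟨D, hDdef⟩ : ∃ D : Finset V, D = T.filter (fun v => d v = 2) := ⟨_, rfl⟩
  have hDz : ∑ v ∈ D, z v = ∑ v ∈ T, z v * (if d v = 2 then 1 else 0) := by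
    rw [hDdef, Finset.sum_filter]
    refine Finset.sum_congr rfl fun v _ => ?_
    split_ifs <;> ring
  -- the target is below the convex combination
  have hgoal : ∑ v ∈ T, z v * pp κ l (d v) ≤
      (1 - l) * ((∑ v ∈ I 0, z v + ∑ v ∈ I 1, z v) / 2) + l * ∑ v ∈ D, z v := by
    have h2 : ∑ v ∈ T, z v * pp κ l (d v) = (1 - l) * ((5 - κ) / 10 * ∑ v ∈ T, z v +
          1 / 10 * ∑ v ∈ T, d v * z v) + l * ∑ v ∈ D, z v := by
      rw [hDz, Finset.mul_sum, Finset.mul_sum, ← Finset.sum_add_distrib, Finset.mul_sum,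
          Finset.mul_sum, ← Finset.sum_add_distrib]
      refine Finset.sum_congr rfl fun v _ => ?_
      unfold pp
      split_ifs <;> ring
    rw [h2, hsum]
    have h3 : (5 - κ) / 10 * ∑ v ∈ T, z v + 1 / 10 * ∑ v ∈ T, d v * z v ≤
        (∑ v ∈ T, z v - ∑ v ∈ T ∩ R, z v) / 2 := by linarith
    have h4 := mul_le_mul_of_nonneg_left h3 (sub_nonneg.2 hl1)
    linarith
  by_contra hcon
  push Not at hcon
  have g0 := hcon (I 0) (hIT 0) (hIind 0)
  have g1 := hcon (I 1) (hIT 1) (hIind 1)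
  have gD := hcon D (by rw [hDdef]; exact Finset.filter_subset _ _) (by
    intro u hu v hv
    rw [hDdef, mem_filter] at hu hv
    exact hD u hu.1 v hv.1 hu.2 hv.2)
  obtain ⟨A, hA⟩ : ∃ A, A = ∑ v ∈ T, z v * pp κ l (d v) := ⟨_, rfl⟩
  rw [← hA] at g0 g1 gD hgoal
  rcases eq_or_lt_of_le hl1 with h1 | h1
  · subst h1
    nlinarith
  · have h3 : (1 - l) * ((∑ v ∈ I 0, z v + ∑ v ∈ I 1, z v) / 2) < (1 - l) * A :=
      mul_lt_mul_of_pos_left (by linarith) (by linarith)
    have h4 : l * ∑ v ∈ D, z v ≤ l * A := mul_le_mul_of_nonneg_left gD.le hl0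
    linarith

end conf

/-- one step of the induction -/
theorem step' (q m e : ℕ) (l η : ℝ) (hq : 273 ≤ q) (hl0 : 0 ≤ l) (hl1 : l ≤ 1) (hη0 : 0 ≤ η)
    (hη1 : η ≤ 1) (hηp : ∀ d ≤ 2, η * pp (2 + 136 / q) l d < 1)
    (hnum : ∀ d ≤ 2, ∀ x cnt N : ℕ, N ≤ 2 * q ^ 2 → (4 - d) * m ≤ x + e →
      (1 - η) ^ cnt ≤ N * (1 - η * pp (2 + 136 / q) l d) ^ x → m ≤ cnt)
    {V : Type} [Fintype V] [DecidableEq V] [Nonempty V] (G : SimpleGraph V)
    (hP : Pl G) (hG : G.CliqueFree 3) :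
    ∃ T : Finset V, T.Nonempty ∧ 
      ∀ (L f : V → Finset ℕ), (∀ v, 4 * m ≤ (L v).card + e) → (∀ v, (f v).card ≤ m) →
        ∃ g : V → Finset ℕ, (∀ v ∈ T, g v ⊆ L v ∧ (g v).card = m) ∧
          (∀ u ∈ T, ∀ v ∈ T, G.Adj u v → Disjoint (g u) (g v)) ∧
          (∀ u ∈ T, ∀ v, v ∉ T → G.Adj u v → Disjoint (g u) (f v)) := by
  classical
  let B := G.edgeSet
  let s : B → V := fun b => (Quot.out b.1).1
  let t : B → V := fun b => (Quot.out b.1).2
  have hst : ∀ b : B, s(s b, t b) = b.1 := fun b => Quot.out_eq b.1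
  have hI : Dual.Ix G s t := by
    refine ⟨?_, ?_⟩
    · intro b
      rw [← SimpleGraph.mem_edgeSet, hst]
      exact b.2
    · intro b b' h
      rw [hst, hst] at h
      exact Subtype.ext h
  have hcov : ∀ u v, G.Adj u v → ∃ b, s(s b, t b) = s(u, v) := by
    intro u v huv
    exact ⟨⟨s(u, v), huv⟩, hst _⟩
  obtain ⟨T, hTne, hTc, hsp⟩ := exists_conf' hP hG hI q (by omega)
  obtain ⟨M⟩ := exists_model' hP hI
  have hκ : (2 + 136 / q : ℝ) < 5 / 2 := by
    have h1 : (273 : ℝ) ≤ q := by exact_mod_cast hq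
    have h2 : (136 : ℝ) / q < 1 / 2 := by
      rw [div_lt_iff₀ (by linarith)]
      linarith
    linarith
  have hd2 := deg_le_two' s t T (dg s t T) _ hκ hsp
  refine ⟨T, hTne, ?_⟩
  intro L f hL hf
  obtain ⟨L', hL'⟩ : ∃ L' : V → Finset ℕ, ∀ v, L' v =
      L v \ ((univ.filter (fun b => s b = v ∧ t b ∉ T)).biUnion (fun b => f (t b)) ∪
        (univ.filter (fun b => t b = v ∧ s b ∉ T)).biUnion (fun b => f (s b))) :=
    ⟨_, fun _ => rfl⟩
  have hL'c : ∀ v, (L v).card ≤ (L' v).card + dg s t T v * m := by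
    intro v
    have h1 : ((univ.filter (fun b => s b = v ∧ t b ∉ T)).biUnion (fun b => f (t b)) ∪
        (univ.filter (fun b => t b = v ∧ s b ∉ T)).biUnion (fun b => f (s b))).card ≤
        dg s t T v * m := by
      refine (Finset.card_union_le _ _).trans ?_
      unfold dg
      rw [add_mul]
      apply add_le_add
      · exact Finset.card_biUnion_le_card_mul _ _ _ (fun b _ => hf _)
      · exact Finset.card_biUnion_le_card_mul _ _ _ (fun b _ => hf _)
    have h2 := Finset.le_card_sdiff ((univ.filter (fun b => s b = v ∧ t b ∉ T)).biUnion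
        (fun b => f (t b)) ∪ (univ.filter (fun b => t b = v ∧ s b ∉ T)).biUnion
        (fun b => f (s b))) (L v)
    rw [← hL'] at h2
    omega
  obtain ⟨I, hInd, hcnt⟩ := Col.counts T (fun I => ∀ u ∈ I, ∀ v ∈ I, ¬ G.Adj u v)
    (fun v => pp (2 + 136 / q) l (dg s t T v)) η hη0 hη1
    (fun v hv => hηp _ (hd2 v hv))
    (fun z hz hzT => heavy' hI hcov M hG T (dg s t T) _ l hκ hl0 hl1 hsp z hz hzT) L'
  have hcm : ∀ v ∈ T, m ≤ ((L' v).filter (fun c => v ∈ I c)).card := by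
    intro v hv
    refine hnum _ (hd2 v hv) _ _ _ hTc ?_ (hcnt v hv)
    have h1 := hL'c v
    have h2 := hL v
    have h3 := hd2 v hv
    have h4 : (4 - dg s t T v) * m = 4 * m - dg s t T v * m := Nat.sub_mul _ _ _
    omega
  have hg : ∀ v, ∃ g : Finset ℕ, v ∈ T → g ⊆ (L' v).filter (fun c => v ∈ I c) ∧ g.card = m := by
    intro v
    by_cases hv : v ∈ T
    · obtain ⟨g, hg⟩ := Finset.exists_subset_card_eq (hcm v hv)
      exact ⟨g, fun _ => hg⟩
    · exact ⟨∅, fun h => absurd h hv⟩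
  choose g hg using hg
  refine ⟨g, ?_, ?_, ?_⟩
  · intro v hv
    refine ⟨?_, (hg v hv).2⟩
    refine (hg v hv).1.trans ((Finset.filter_subset _ _).trans ?_)
    rw [hL']
    exact Finset.sdiff_subset
  · intro u hu v hv huv
    rw [Finset.disjoint_left]
    intro c hcu hcv
    have h1 := mem_filter.1 ((hg u hu).1 hcu)
    have h2 := mem_filter.1 ((hg v hv).1 hcv)
    exact hInd c (mem_biUnion.2 ⟨u, hu, h1.1⟩) u h1.2 v h2.2 huv
  · intro u hu v hv huv
    rw [Finset.disjoint_left]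
    intro c hcu hcv
    have h1 := (mem_filter.1 ((hg u hu).1 hcu)).1
    rw [hL', mem_sdiff] at h1
    apply h1.2
    obtain ⟨b, hb⟩ := hcov u v huv
    rw [Sym2.eq_iff] at hb
    rw [mem_union, mem_biUnion, mem_biUnion]
    rcases hb with ⟨e1, e2⟩ | ⟨e1, e2⟩
    · left
      exact ⟨b, mem_filter.2 ⟨mem_univ _, e1, by rw [e2]; exact hv⟩, by rw [e2]; exact hcv⟩
    · right
      exact ⟨b, mem_filter.2 ⟨mem_univ _, e2, by rw [e1]; exact hv⟩, by rw [e1]; exact hcv⟩

/-- induction, given the step -/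
theorem ind_of_step (m e : ℕ)
    (hstep : ∀ (V : Type) [Fintype V] [DecidableEq V] [Nonempty V] (G : SimpleGraph V),
      Pl G → G.CliqueFree 3 → ∃ T : Finset V, T.Nonempty ∧ 
      ∀ (L f : V → Finset ℕ), (∀ v, 4 * m ≤ (L v).card + e) → (∀ v, (f v).card ≤ m) →
        ∃ g : V → Finset ℕ, (∀ v ∈ T, g v ⊆ L v ∧ (g v).card = m) ∧
          (∀ u ∈ T, ∀ v ∈ T, G.Adj u v → Disjoint (g u) (g v)) ∧
          (∀ u ∈ T, ∀ v, v ∉ T → G.Adj u v → Disjoint (g u) (f v))) :
    ∀ (n : ℕ) (V : Type) [Fintype V] (G : SimpleGraph V), Fintype.card V = n →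
      G.CliqueFree 3 → Pl G → ∀ L : V → Finset ℕ, (∀ v, 4 * m ≤ (L v).card + e) →
        ∃ f : V → Finset ℕ, (∀ v, f v ⊆ L v ∧ (f v).card = m) ∧
          ∀ u v, G.Adj u v → Disjoint (f u) (f v) := by
  intro n
  induction n using Nat.strong_induction_on with
  | _ n ih =>
  intro V _ G hn hG hP L hL
  classical
  rcases isEmpty_or_nonempty V with hV | hV
  · exact ⟨fun _ => ∅, fun v => isEmptyElim v, fun u => isEmptyElim u⟩
  obtain ⟨T, hTne, hT⟩ := hstep V G hP hG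
  let W := {v : V // v ∉ T}
  have hcard : Fintype.card W < n := by
    rw [← hn]
    obtain ⟨x, hx⟩ := hTne
    exact Fintype.card_subtype_lt (x := x) (fun h => h hx)
  have hP' : Pl (G.comap (Subtype.val : W → V)) :=
    hP.comap Subtype.val Subtype.val_injective _ (fun u v h => h)
  have hG' : (G.comap (Subtype.val : W → V)).CliqueFree 3 :=
    hG.comap ⟨(SimpleGraph.Embedding.comap ⟨Subtype.val, Subtype.val_injective⟩ G).toCopy⟩
  obtain ⟨f0, hf0, hf0d⟩ := ih _ hcard W (G.comap (Subtype.val : W → V)) rfl hG' hP'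
    (fun v => L v.1) (fun v => hL v.1)
  obtain ⟨f, hf⟩ : ∃ f : V → Finset ℕ, ∀ v, f v = if h : v ∉ T then f0 ⟨v, h⟩ else ∅ :=
    ⟨_, fun _ => rfl⟩
  have hf1 : ∀ v (h : v ∉ T), f v = f0 ⟨v, h⟩ := by
    intro v h
    rw [hf, dif_pos h]
  obtain ⟨g, hg1, hg2, hg3⟩ := hT L f hL (by
    intro v
    by_cases h : v ∉ T
    · rw [hf1 v h, (hf0 _).2]
    · rw [hf, dif_neg h]; simp)
  refine ⟨fun v => if v ∈ T then g v else f v, ?_, ?_⟩
  · intro v
    by_cases h : v ∈ T
    · simp only [h, if_true]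
      exact hg1 v h
    · simp only [h, if_false]
      rw [hf1 v h]
      exact hf0 ⟨v, h⟩
  · intro u v huv
    by_cases hu : u ∈ T <;> by_cases hv : v ∈ T
    · simp only [hu, hv, if_true]
      exact hg2 u hu v hv huv
    · simp only [hu, hv, if_true, if_false]
      exact hg3 u hu v hv huv
    · simp only [hu, hv, if_true, if_false]
      exact (hg3 v hv u hu huv.symm).symm
    · simp only [hu, hv, if_false]
      rw [hf1 u hu, hf1 v hv]
      exact hf0d ⟨u, hu⟩ ⟨v, hv⟩ huv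

end Pool.Agent.U396.Asym
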