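import Pool.Agent.U396.Asym

/-! Numerical instances of the general theorem, and the degeneracy bound. -/

set_option autoImplicit false
set_option linter.unusedSectionVars false

namespace Pool.Agent.U396.Asym

open Finset Pool.Agent.Helper531_Thick Pool.Agent.Helper770.Sep Pool.Agent.U396.Draw Pool.Agent.U396.Main

/-- abstract numerical criterion -/
theorem num_gen (q m e A B : ℕ) (κ l η σ : ℝ) (hη0 : 0 ≤ η) (hη1 : η < 1)
    (hr0 : ∀ d ≤ 2, 0 < 1 - η * pp κ l d) (hr1 : ∀ d ≤ 2, 1 - η * pp κ l d ≤ 1)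
    (hr : ∀ d ≤ 2, σ * (1 - η * pp κ l d) ^ (A * (4 - d) - B) ≤ (1 - η) ^ A)
    (hσ0 : 0 < σ) (hσ : ((2 * q ^ 2 : ℕ) : ℝ) ^ A < σ ^ m) (hAe : A * e ≤ B * m)
    (hAB : B ≤ 2 * A) :
    ∀ d ≤ 2, ∀ x cnt N : ℕ, N ≤ 2 * q ^ 2 → (4 - d) * m ≤ x + e →
      (1 - η) ^ cnt ≤ N * (1 - η * pp κ l d) ^ x → m ≤ cnt := by
  intro d hd x cnt N hN hx hc
  by_contra hlt
  push Not at hlt
  obtain ⟨r, hrdef⟩ : ∃ r : ℝ, r = 1 - η * pp κ l d := ⟨_, rfl⟩
  have h0 := hr0 d hd
  have h1 := hr1 d hd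
  have h2 := hr d hd
  rw [← hrdef] at h0 h1 h2 hc
  have e1 : (1 - η) ^ m ≤ N * r ^ x := by
    refine le_trans ?_ hc
    exact pow_le_pow_of_le_one (by linarith) (by linarith) hlt.le
  have e2 : ((1 - η) ^ A) ^ m ≤ ((2 * q ^ 2 : ℕ) : ℝ) ^ A * (r ^ (A * (4 - d) - B)) ^ m := by
    calc ((1 - η) ^ A) ^ m = ((1 - η) ^ m) ^ A := by rw [← pow_mul, ← pow_mul, mul_comm]
      _ ≤ (N * r ^ x) ^ A := pow_le_pow_left₀ (pow_nonneg (by linarith) _) e1 A
      _ = (N : ℝ) ^ A * r ^ (x * A) := by rw [mul_pow, ← pow_mul]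
      _ ≤ ((2 * q ^ 2 : ℕ) : ℝ) ^ A * r ^ ((A * (4 - d) - B) * m) := by
          apply mul_le_mul
          · apply pow_le_pow_left₀ (Nat.cast_nonneg _)
            exact_mod_cast hN
          · apply pow_le_pow_of_le_one h0.le h1
            have h3 : A * ((4 - d) * m) ≤ A * (x + e) := Nat.mul_le_mul_left _ hx
            rw [Nat.sub_mul]
            have h4 : A * (4 - d) * m = A * ((4 - d) * m) := by ring
            rw [h4, mul_comm x A]
            rw [mul_add] at h3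
            omega
          · positivity
          · positivity
      _ = _ := by rw [pow_mul]
  have e3 : σ ^ m * (r ^ (A * (4 - d) - B)) ^ m ≤ ((1 - η) ^ A) ^ m := by
    rw [← mul_pow]
    exact pow_le_pow_left₀ (by positivity) h2 m
  have e4 : 0 < (r ^ (A * (4 - d) - B)) ^ m := by positivity
  have e5 := mul_lt_mul_of_pos_right hσ e4
  linarith

/-- general consequence -/
theorem col_gen (q m e A B : ℕ) (κ l η σ : ℝ) (hκ : κ = 2 + 136 / q) (hq : 273 ≤ q)
    (hl0 : 0 ≤ l) (hl1 : l ≤ 1) (hη0 : 0 ≤ η) (hη1 : η < 1)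
    (hr0 : ∀ d ≤ 2, 0 < 1 - η * pp κ l d) (hr1 : ∀ d ≤ 2, 1 - η * pp κ l d ≤ 1)
    (hr : ∀ d ≤ 2, σ * (1 - η * pp κ l d) ^ (A * (4 - d) - B) ≤ (1 - η) ^ A)
    (hσ0 : 0 < σ) (hσ : ((2 * q ^ 2 : ℕ) : ℝ) ^ A < σ ^ m) (hAe : A * e ≤ B * m)
    (hAB : B ≤ 2 * A) (V : Type) [Fintype V] (G : SimpleGraph V)
    (hG : G.CliqueFree 3) (hP : Pl G) (L : V → Finset ℕ) (hL : ∀ v, 4 * m ≤ (L v).card + e) :
    ∃ f : V → Finset ℕ, (∀ v, f v ⊆ L v ∧ (f v).card = m) ∧
          ∀ u v, G.Adj u v → Disjoint (f u) (f v) := by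
  subst hκ
  refine ind_of_step m e ?_ _ V G rfl hG hP L hL
  intro W _ _ _ H hH hH3
  refine step' q m e l η hq hl0 hl1 hη0 hη1.le (fun d hd => by linarith [hr0 d hd]) ?_ H hH hH3
  exact num_gen q m e A B _ l η σ hη0 hη1 hr0 hr1 hr hσ0 hσ hAe hAB

set_option exponentiation.threshold 4000 in
/-- `3500` -/
theorem col_3500 (m e : ℕ) (hm : 3500 ≤ m) (he : 100 * e ≤ m) (V : Type) [Fintype V]
    (G : SimpleGraph V) (hG : G.CliqueFree 3) (hP : Pl G) (L : V → Finset ℕ)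
    (hL : ∀ v, 4 * m ≤ (L v).card + e) :
    ∃ f : V → Finset ℕ, (∀ v, f v ⊆ L v ∧ (f v).card = m) ∧
          ∀ u v, G.Adj u v → Disjoint (f u) (f v) := by
  refine col_gen 8500 m e 100 1 (252 / 125) (41 / 500) (1 / 8) (343 / 200) (by norm_num)
    (by norm_num) (by norm_num) (by norm_num) (by norm_num) (by norm_num) ?_ ?_ ?_ (by norm_num)
    ?_ (by omega) (by norm_num) V G hG hP L hL
  · intro d hd
    unfold pp
    interval_cases d <;> norm_num
  · intro d hd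
    unfold pp
    interval_cases d <;> norm_num
  · intro d hd
    unfold pp
    interval_cases d <;> norm_num
  · have h1 : ((2 * 8500 ^ 2 : ℕ) : ℝ) < (343 / 200) ^ 35 := by norm_num
    calc ((2 * 8500 ^ 2 : ℕ) : ℝ) ^ 100 < ((343 / 200 : ℝ) ^ 35) ^ 100 :=
          pow_lt_pow_left₀ h1 (Nat.cast_nonneg _) (by norm_num)
      _ = (343 / 200 : ℝ) ^ 3500 := by rw [← pow_mul]
      _ ≤ (343 / 200) ^ m := pow_le_pow_right₀ (by norm_num) hm

set_option exponentiation.threshold 4000 in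
/-- lists of size `3.81 m` for large `m` -/
theorem col_asym : ∃ m0 : ℕ, ∀ m ≥ m0, ∀ e : ℕ, 100 * e ≤ 19 * m → ∀ (V : Type) [Fintype V]
    (G : SimpleGraph V), G.CliqueFree 3 → Pl G → ∀ L : V → Finset ℕ,
    (∀ v, 4 * m ≤ (L v).card + e) →
    ∃ f : V → Finset ℕ, (∀ v, f v ⊆ L v ∧ (f v).card = m) ∧
          ∀ u v, G.Adj u v → Disjoint (f u) (f v) := by
  obtain ⟨m0, h0⟩ := pow_unbounded_of_one_lt (((2 * 27200 ^ 2 : ℕ) : ℝ) ^ 100)
    (show (1 : ℝ) < 10001 / 10000 by norm_num)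
  refine ⟨m0, ?_⟩
  intro m hm e he V _ G hG hP L hL
  refine col_gen 27200 m e 100 19 (401 / 200) (27 / 250) (1 / 500) (10001 / 10000) (by norm_num)
    (by norm_num) (by norm_num) (by norm_num) (by norm_num) (by norm_num) ?_ ?_ ?_ (by norm_num)
    ?_ he (by norm_num) V G hG hP L hL
  · intro d hd
    unfold pp
    interval_cases d <;> norm_num
  · intro d hd
    unfold pp
    interval_cases d <;> norm_num
  · intro d hd
    unfold pp
    interval_cases d <;> norm_num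
  · exact lt_of_lt_of_le h0 (pow_le_pow_right₀ (by norm_num) hm)

/-- a vertex of degree at most three -/
theorem exists_deg_le {V B : Type} [Fintype V] [DecidableEq V] [Fintype B] [DecidableEq B]
    (s t : B → V) (h : Fintype.card B < 2 * Fintype.card V) :
    ∃ v, dg s t ∅ v ≤ 3 := by
  by_contra hcon
  push Not at hcon
  have h1 := sum_dg s t ∅ (univ : Finset V)
  have h2 : ∑ v : V, 4 ≤ ∑ v : V, dg s t ∅ v := Finset.sum_le_sum fun v _ => hcon v
  rw [h1] at h2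
  simp only [mem_univ, notMem_empty, not_false_eq_true, and_self, filter_true, sum_const,
    smul_eq_mul, card_univ] at h2
  omega

/-- the greedy step -/
theorem step0 (m : ℕ) {V : Type} [Fintype V] [DecidableEq V] [Nonempty V] (G : SimpleGraph V)
    (hP : Pl G) (hG : G.CliqueFree 3) :
    ∃ T : Finset V, T.Nonempty ∧ 
      ∀ (L f : V → Finset ℕ), (∀ v, 4 * m ≤ (L v).card + 0) → (∀ v, (f v).card ≤ m) →
        ∃ g : V → Finset ℕ, (∀ v ∈ T, g v ⊆ L v ∧ (g v).card = m) ∧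
          (∀ u ∈ T, ∀ v ∈ T, G.Adj u v → Disjoint (g u) (g v)) ∧
          (∀ u ∈ T, ∀ v, v ∉ T → G.Adj u v → Disjoint (g u) (f v)) := by
  classical
  let B := G.edgeSet
  let s : B → V := fun b => (Quot.out b.1).1
  let t : B → V := fun b => (Quot.out b.1).2
  have hst : ∀ b : B, s(s b, t b) = b.1 := fun b => Quot.out_eq b.1
  have hI : Dual.Ix G s t := by
    refine ⟨?_, ?_⟩
    · intro b
      rw [← SimpleGraph.mem_edgeSet, hst]
      exact b.2
    · intro b b' h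
      rw [hst, hst] at h
      exact Subtype.ext h
  have hcov : ∀ u v, G.Adj u v → ∃ b, s(s b, t b) = s(u, v) := by
    intro u v huv
    exact ⟨⟨s(u, v), huv⟩, hst _⟩
  obtain ⟨M⟩ := exists_model' hP hI
  obtain ⟨v, hv⟩ := exists_deg_le s t (Dual.edge_bound M hI hG)
  refine ⟨{v}, Finset.singleton_nonempty v, ?_⟩
  intro L f hL hf
  obtain ⟨F, hF⟩ : ∃ F : Finset ℕ, F =
      (univ.filter (fun b => s b = v ∧ t b ∉ (∅ : Finset V))).biUnion (fun b => f (t b)) ∪
        (univ.filter (fun b => t b = v ∧ s b ∉ (∅ : Finset V))).biUnion (fun b => f (s b)) :=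
    ⟨_, rfl⟩
  have h1 : F.card ≤ dg s t ∅ v * m := by
    rw [hF]
    refine (Finset.card_union_le _ _).trans ?_
    unfold dg
    rw [add_mul]
    apply add_le_add
    · exact Finset.card_biUnion_le_card_mul _ _ _ (fun b _ => hf _)
    · exact Finset.card_biUnion_le_card_mul _ _ _ (fun b _ => hf _)
  have h2 := Finset.le_card_sdiff F (L v)
  have h3 : dg s t ∅ v * m ≤ 3 * m := Nat.mul_le_mul_right _ hv
  have h4 := hL v
  obtain ⟨g, hg, hgc⟩ := Finset.exists_subset_card_eq (s := L v \ F) (n := m) (by omega)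
  refine ⟨fun _ => g, ?_, ?_, ?_⟩
  · intro u hu
    rw [mem_singleton] at hu
    subst hu
    exact ⟨hg.trans Finset.sdiff_subset, hgc⟩
  · intro u hu w hw huw
    rw [mem_singleton] at hu hw
    subst hu
    subst hw
    exact absurd huw (G.loopless.irrefl _)
  · intro u hu w hw huw
    rw [mem_singleton] at hu
    subst hu
    rw [Finset.disjoint_left]
    intro c hc hcw
    have h5 := hg hc
    rw [mem_sdiff] at h5
    apply h5.2
    obtain ⟨b, hb⟩ := hcov u w huw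
    rw [Sym2.eq_iff] at hb
    rw [hF, mem_union, mem_biUnion, mem_biUnion]
    rcases hb with ⟨e1, e2⟩ | ⟨e1, e2⟩
    · left
      exact ⟨b, mem_filter.2 ⟨mem_univ _, e1, by simp⟩, by rw [e2]; exact hcw⟩
    · right
      exact ⟨b, mem_filter.2 ⟨mem_univ _, e2, by simp⟩, by rw [e1]; exact hcw⟩

/-- lists of size `4 m` -/
theorem col_zero (m : ℕ) (V : Type) [Fintype V]
    (G : SimpleGraph V) (hG : G.CliqueFree 3) (hP : Pl G) (L : V → Finset ℕ)
    (hL : ∀ v, 4 * m ≤ (L v).card) :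
    ∃ f : V → Finset ℕ, (∀ v, f v ⊆ L v ∧ (f v).card = m) ∧
          ∀ u v, G.Adj u v → Disjoint (f u) (f v) := by
  refine ind_of_step m 0 ?_ _ V G rfl hG hP L hL
  intro W _ _ _ H hH hH3
  exact step0 m H hH hH3

end Pool.Agent.U396.Asym
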