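import Pool.Agent.Helper531_Thick.Topo
import Pool.Agent.Helper770.VanKampen
import Pool.Agent.Helper770.Sep
import Pool.Agent.U396.Dual

/-! Plane drawings by arcs: restriction, subdivision (which gives the grid model), and the absence
of `K₅` models. -/

set_option autoImplicit false
set_option linter.unusedSectionVars false

namespace Pool.Agent.U396.Draw

open Finset Pool.Agent.Helper531_Thick

/-- plane drawings by arcs -/
def Pl {V : Type} (G : SimpleGraph V) : Prop :=
  ∃ (p : V → ℝ × ℝ) (γ : V → V → unitInterval → ℝ × ℝ),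
          Function.Injective p ∧
          (∀ u v, G.Adj u v →
            Continuous (γ u v) ∧ Function.Injective (γ u v) ∧
            γ u v 0 = p u ∧ γ u v 1 = p v ∧
            (∀ t, γ u v t ∈ Set.range p → t = 0 ∨ t = 1)) ∧
          (∀ u v x y, G.Adj u v → G.Adj x y → s(u, v) ≠ s(x, y) →
            ∀ s t, γ u v s = γ x y t → s = 0 ∨ s = 1)

theorem Pl.comap {V W : Type} {G : SimpleGraph V} (h : Pl G) (f : W → V)
    (hf : Function.Injective f) (H : SimpleGraph W) (hH : ∀ u v, H.Adj u v → G.Adj (f u) (f v)) :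
    Pl H := by
  obtain ⟨p, γ, h1, h2, h3⟩ := h
  refine ⟨p ∘ f, fun u v => γ (f u) (f v), h1.comp hf, ?_, ?_⟩
  · intro u v huv
    obtain ⟨a1, a2, a3, a4, a5⟩ := h2 _ _ (hH u v huv)
    refine ⟨a1, a2, a3, a4, ?_⟩
    rintro t ⟨w, hw⟩
    exact a5 t ⟨f w, hw⟩
  · intro u v x y huv hxy hne s t hst
    refine h3 _ _ _ _ (hH u v huv) (hH x y hxy) ?_ s t hst
    intro h
    apply hne
    have h' : Sym2.map f s(u, v) = Sym2.map f s(x, y) := h
    exact Sym2.map.injective hf h' 

/-- half of a parameter -/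
noncomputable def half (τ : unitInterval) : unitInterval :=
  ⟨(τ : ℝ) / 2, by have := τ.2.1; linarith, by have := τ.2.2; linarith⟩

theorem half_coe (τ : unitInterval) : ((half τ : unitInterval) : ℝ) = (τ : ℝ) / 2 := rfl

theorem continuous_half : Continuous half := by
  unfold half
  fun_prop

section sub

variable {V B : Type} [DecidableEq V] {G : SimpleGraph V} {s t : B → V}

/-- parameter on the whole edge of a point of a half edge -/
noncomputable def par (s : B → V) (v : V) (b : B) (τ : unitInterval) : unitInterval :=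
  if v = s b then half τ else unitInterval.symm (half τ)

theorem par_coe (s : B → V) (v : V) (b : B) (τ : unitInterval) :
    ((par s v b τ : unitInterval) : ℝ) = if v = s b then (τ : ℝ) / 2 else 1 - (τ : ℝ) / 2 := by
  unfold par
  split_ifs <;> simp [half_coe]

theorem continuous_par (s : B → V) (v : V) (b : B) : Continuous (par s v b) := by
  unfold par
  split_ifs
  · exact continuous_half
  · exact unitInterval.continuous_symm.comp continuous_half

theorem par_end {s : B → V} {v : V} {b : B} {τ : unitInterval}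
    (h : par s v b τ = 0 ∨ par s v b τ = 1) : τ = 0 := by
  have h0 := τ.2.1
  have h1 := τ.2.2
  have hc := par_coe s v b τ
  apply Subtype.ext
  rcases h with h | h <;> rw [h] at hc <;> split_ifs at hc <;> simp only [Set.Icc.coe_zero, Set.Icc.coe_one] at hc ⊢ <;> linarith

/-- A drawing gives a grid model of the subdivision. -/
theorem exists_model' [Fintype V] [Fintype B] [DecidableEq B] (h : Pl G) (hI : Dual.Ix G s t) :
    Nonempty (Model V B (Dual.Eh s t)) := by
  classical
  obtain ⟨p, γ, h1, h2, h3⟩ := h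
  obtain ⟨Γ, hΓ⟩ : ∃ Γ : B → unitInterval → ℝ × ℝ, ∀ b, Γ b = γ (s b) (t b) := ⟨_, fun _ => rfl⟩
  have hΓc : ∀ b, Continuous (Γ b) := fun b => by rw [hΓ]; exact (h2 _ _ (hI.adj b)).1
  have hΓi : ∀ b, Function.Injective (Γ b) := fun b => by rw [hΓ]; exact (h2 _ _ (hI.adj b)).2.1
  have hΓ0 : ∀ b, Γ b 0 = p (s b) := fun b => by rw [hΓ]; exact (h2 _ _ (hI.adj b)).2.2.1
  have hΓ1 : ∀ b, Γ b 1 = p (t b) := fun b => by rw [hΓ]; exact (h2 _ _ (hI.adj b)).2.2.2.1
  have hΓp : ∀ b τ u, Γ b τ = p u → τ = 0 ∨ τ = 1 := fun b τ u h => by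
    rw [hΓ] at h
    exact (h2 _ _ (hI.adj b)).2.2.2.2 τ ⟨u, h.symm⟩
  have hΓd : ∀ b b', b ≠ b' → ∀ τ τ', Γ b τ = Γ b' τ' → τ = 0 ∨ τ = 1 := by
    intro b b' hne τ τ' h
    rw [hΓ, hΓ] at h
    exact h3 _ _ _ _ (hI.adj b) (hI.adj b') (fun h' => hne (hI.inj b b' h')) τ τ' h
  -- the half arcs
  obtain ⟨k, hk⟩ : ∃ k : V → B → unitInterval → ℝ × ℝ, ∀ v b τ, k v b τ = Γ b (par s v b τ) :=
    ⟨_, fun _ _ _ => rfl⟩
  have hsym : ∀ v b, (v = s b ∨ v = t b) → ∀ τ, (τ = 0 → k v b τ = p v) ∧
      (τ = 1 → k v b τ = Γ b (half 1)) := by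
    intro v b hv τ
    rw [hk]
    constructor
    · rintro rfl
      by_cases h : v = s b
      · have : par s v b 0 = 0 := by
          apply Subtype.ext
          rw [par_coe, if_pos h]
          simp
        rw [this, hΓ0, h]
      · have : par s v b 0 = 1 := by
          apply Subtype.ext
          rw [par_coe, if_neg h]
          simp
        rw [this, hΓ1, hv.resolve_left h]
    · rintro rfl
      congr 1
      apply Subtype.ext
      rw [par_coe, half_coe]
      by_cases h : v = s b
      · rw [if_pos h]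
      · rw [if_neg h]; simp only [Set.Icc.coe_one]; norm_num
  have hhalf : ¬ (half 1 = 0 ∨ half 1 = 1) := by
    rintro (h | h)
    · have := congrArg Subtype.val h
      rw [half_coe] at this
      simp at this
    · have := congrArg Subtype.val h
      rw [half_coe] at this
      simp at this
  have hK : ∀ v b v' b' τ τ', (v = s b ∨ v = t b) → (v' = s b' ∨ v' = t b') →
      k v b τ = k v' b' τ' → (v = v' ∧ b = b' ∧ τ = τ') ∨ (τ = 0 ∧ τ' = 0) ∨
        (b = b' ∧ τ = 1 ∧ τ' = 1) := by
    intro v b v' b' τ τ' hv hv' h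
    rw [hk, hk] at h
    by_cases hb : b = b'
    · subst hb
      have h4 := congrArg (Subtype.val) (hΓi b h)
      rw [par_coe, par_coe] at h4
      have t0 := τ.2.1
      have t1 := τ.2.2
      have t0' := τ'.2.1
      have t1' := τ'.2.2
      by_cases e : v = s b <;> by_cases e' : v' = s b
      · rw [if_pos e, if_pos e'] at h4
        exact Or.inl ⟨e.trans e'.symm, rfl, Subtype.ext (by linarith)⟩
      · rw [if_pos e, if_neg e'] at h4
        refine Or.inr (Or.inr ⟨rfl, Subtype.ext ?_, Subtype.ext ?_⟩) <;>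
          simp only [Set.Icc.coe_one] <;> linarith
      · rw [if_neg e, if_pos e'] at h4
        refine Or.inr (Or.inr ⟨rfl, Subtype.ext ?_, Subtype.ext ?_⟩) <;>
          simp only [Set.Icc.coe_one] <;> linarith
      · rw [if_neg e, if_neg e'] at h4
        exact Or.inl ⟨(hv.resolve_left e).trans (hv'.resolve_left e').symm, rfl,
          Subtype.ext (by linarith)⟩
    · exact Or.inr (Or.inl ⟨par_end (hΓd b b' hb _ _ h),
        par_end (hΓd b' b (Ne.symm hb) _ _ h.symm)⟩)
  have hKi : ∀ v b, (v = s b ∨ v = t b) → Function.Injective (k v b) := by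
    intro v b hv τ τ' h
    rcases hK v b v b τ τ' hv hv h with ⟨-, -, h⟩ | ⟨h, h'⟩ | ⟨-, h, h'⟩
    · exact h
    · rw [h, h']
    · rw [h, h']
  have hKc : ∀ v b, Continuous (k v b) := by
    intro v b
    have : k v b = Γ b ∘ par s v b := by
      funext τ
      rw [hk]; rfl
    rw [this]
    exact (hΓc b).comp (continuous_par s v b)
  have hKp : ∀ v b τ u, k v b τ = p u → τ = 0 := by
    intro v b τ u h
    rw [hk] at h
    exact par_end (hΓp b _ u h)
  have hKm : ∀ v b τ b', k v b τ = Γ b' (half 1) → τ = 1 := by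
    intro v b τ b' h
    rw [hk] at h
    by_cases hb : b = b'
    · subst hb
      have h4 := congrArg (Subtype.val) (hΓi b h)
      rw [par_coe, half_coe] at h4
      apply Subtype.ext
      simp only [Set.Icc.coe_one] at h4 ⊢
      split_ifs at h4 <;> linarith
    · exact absurd (hΓd b' b (Ne.symm hb) _ _ h.symm) hhalf
  let H : SimpleGraph (V ⊕ B) := SimpleGraph.fromRel
    (fun x y => ∃ v b, x = Sum.inl v ∧ y = Sum.inr b ∧ (v = s b ∨ v = t b))
  have hHl : ∀ v b, H.Adj (Sum.inl v) (Sum.inr b) → (v = s b ∨ v = t b) := by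
    rintro v b ⟨-, ⟨v', b', h1, h2, h3⟩ | ⟨v', b', h1, h2, h3⟩⟩
    · rw [Sum.inl.inj h1, Sum.inr.inj h2]; exact h3
    · simp at h1
  have hHr : ∀ v b, H.Adj (Sum.inr b) (Sum.inl v) → (v = s b ∨ v = t b) :=
    fun v b h => hHl v b h.symm
  have hHll : ∀ v v', ¬ H.Adj (Sum.inl v) (Sum.inl v') := by
    rintro v v' ⟨-, ⟨_, b', h1, h2, h3⟩ | ⟨_, b', h1, h2, h3⟩⟩ <;> simp at h2
  have hHrr : ∀ b b', ¬ H.Adj (Sum.inr b) (Sum.inr b') := by
    rintro v v' ⟨-, ⟨_, b', h1, h2, h3⟩ | ⟨_, b', h1, h2, h3⟩⟩ <;> simp at h1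
  let p' : V ⊕ B → ℝ × ℝ := Sum.elim p (fun b => Γ b (half 1))
  let γ' : V ⊕ B → V ⊕ B → unitInterval → ℝ × ℝ := fun x y => match x, y with
    | Sum.inl v, Sum.inr b => k v b
    | Sum.inr b, Sum.inl v => fun τ => k v b (unitInterval.symm τ)
    | _, _ => fun _ => (0, 0)
  have hplane : IsPlane H := by
    refine ⟨p', ?_, γ', ?_, ?_⟩
    · rintro (u | b) (u' | b') h
      · exact congrArg Sum.inl (h1 h)
      · exact absurd (hΓp b' (half 1) u h.symm) hhalf
      · exact absurd (hΓp b (half 1) u' h) hhalf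
      · by_contra hne
        exact hhalf (hΓd b b' (fun h => hne (by rw [h])) _ _ h)
    · have hav : ∀ v b, (v = s b ∨ v = t b) → ∀ τ, τ ≠ 0 → τ ≠ 1 → ∀ w, k v b τ ≠ p' w := by
        rintro v b hv τ h0 h1 (w | w) h
        · exact h0 (hKp v b τ w h)
        · exact h1 (hKm v b τ w h)
      rintro (v | b) (v' | b') h
      · exact absurd h (hHll _ _)
      · have hv := hHl _ _ h
        exact ⟨hKc v b', hKi v b' hv, (hsym v b' hv 0).1 rfl, (hsym v b' hv 1).2 rfl,
          hav v b' hv⟩
      · have hv := hHr _ _ h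
        refine ⟨(hKc v' b).comp unitInterval.continuous_symm,
          (hKi v' b hv).comp unitInterval.symm_bijective.injective, ?_, ?_, ?_⟩
        · change k v' b (unitInterval.symm 0) = _
          rw [unitInterval.symm_zero]
          exact (hsym v' b hv 1).2 rfl
        · change k v' b (unitInterval.symm 1) = _
          rw [unitInterval.symm_one]
          exact (hsym v' b hv 0).1 rfl
        · intro τ h0 h1 w
          refine hav v' b hv (unitInterval.symm τ) ?_ ?_ w
          · intro h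
            apply h1
            rw [← unitInterval.symm_symm τ, h, unitInterval.symm_zero]
          · intro h
            apply h0
            rw [← unitInterval.symm_symm τ, h, unitInterval.symm_one]
      · exact absurd h (hHrr _ _)
    · have hn0 : ∀ τ : unitInterval, τ ≠ 1 → unitInterval.symm τ ≠ 0 := by
        intro τ h1 h
        apply h1
        rw [← unitInterval.symm_symm τ, h, unitInterval.symm_zero]
      have hn1 : ∀ τ : unitInterval, τ ≠ 0 → unitInterval.symm τ ≠ 1 := by
        intro τ h1 h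
        apply h1
        rw [← unitInterval.symm_symm τ, h, unitInterval.symm_one]
      have hd : ∀ v b v' b' τ τ', (v = s b ∨ v = t b) → (v' = s b' ∨ v' = t b') → τ ≠ 0 → τ ≠ 1 →
          k v b τ = k v' b' τ' → v = v' ∧ b = b' := by
        intro v b v' b' τ τ' hv hv' h0 h1 h
        rcases hK v b v' b' τ τ' hv hv' h with ⟨h, h', -⟩ | ⟨h, -⟩ | ⟨-, h, -⟩
        · exact ⟨h, h'⟩
        · exact absurd h h0
        · exact absurd h h1
      rintro (v | b) (v' | b') (w | c) (w' | c') h h' τ τ' g0 g1 g0' g1' he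
      all_goals first
        | exact absurd h (hHll _ _)
        | exact absurd h' (hHll _ _)
        | exact absurd h (hHrr _ _)
        | exact absurd h' (hHrr _ _)
        | skip
      · obtain ⟨e1, e2⟩ := hd _ _ _ _ _ _ (hHl _ _ h) (hHl _ _ h') g0 g1 he
        exact Or.inl ⟨by rw [e1], by rw [e2]⟩
      · obtain ⟨e1, e2⟩ := hd _ _ _ _ _ _ (hHl _ _ h) (hHr _ _ h') g0 g1 he
        exact Or.inr ⟨by rw [e1], by rw [e2]⟩
      · obtain ⟨e1, e2⟩ := hd _ _ _ _ _ _ (hHr _ _ h) (hHl _ _ h') (hn0 _ g1) (hn1 _ g0) he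
        exact Or.inr ⟨by rw [e2], by rw [e1]⟩
      · obtain ⟨e1, e2⟩ := hd _ _ _ _ _ _ (hHr _ _ h) (hHr _ _ h') (hn0 _ g1) (hn1 _ g0) he
        exact Or.inl ⟨by rw [e2], by rw [e1]⟩
  refine exists_model H hplane (Dual.Eh s t) ?_
  intro e he
  refine ⟨by simp, Or.inl ⟨e.1, e.2, rfl, rfl, Dual.mem_Eh.1 he⟩⟩

end sub

end Pool.Agent.U396.Draw
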