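import Pool.Agent.U396.Draw

/-! A graph with a plane drawing has no `K₅` model. -/

set_option autoImplicit false
set_option linter.unusedSectionVars false

namespace Pool.Agent.U396.Draw

open Finset Pool.Agent.Helper770.Sep

variable {V : Type}

/-- identification of the plane with the complex numbers -/
def cx (z : ℝ × ℝ) : ℂ := ⟨z.1, z.2⟩

theorem cx_inj : Function.Injective cx := by
  intro z w h
  exact Prod.ext (congrArg Complex.re h) (congrArg Complex.im h)

theorem continuous_cx : Continuous cx := by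
  have : cx = fun z : ℝ × ℝ => (z.1 : ℂ) + z.2 * Complex.I := by
    funext z
    apply Complex.ext <;> simp [cx]
  rw [this]
  fun_prop

/-- the part of a drawing spanned by a set of vertices -/
def thick (G : SimpleGraph V) (p : V → ℝ × ℝ) (γ : V → V → unitInterval → ℝ × ℝ)
    (C : Set V) : Set ℂ :=
  {z | (∃ v ∈ C, z = cx (p v)) ∨ ∃ u ∈ C, ∃ v ∈ C, G.Adj u v ∧ ∃ t, z = cx (γ u v t)}

theorem noK5 [DecidableEq V] {G : SimpleGraph V} (h : Pl G) : NoK5 G := by
  obtain ⟨p, γ, h1, h2, h3⟩ := h
  -- arcs meet vertices only at their ends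
  have hpe : ∀ u v, G.Adj u v → ∀ t w, γ u v t = p w → w = u ∨ w = v := by
    intro u v huv t w h
    obtain ⟨-, -, a3, a4, a5⟩ := h2 u v huv
    rcases a5 t ⟨w, h.symm⟩ with rfl | rfl
    · left; exact h1 (h.symm.trans a3)
    · right; exact h1 (h.symm.trans a4)
  have hend : ∀ u v, G.Adj u v → ∀ t, (t = 0 ∨ t = 1) → γ u v t = p u ∨ γ u v t = p v := by
    intro u v huv t ht
    obtain ⟨-, -, a3, a4, a5⟩ := h2 u v huv
    rcases ht with rfl | rfl
    · exact Or.inl a3
    · exact Or.inr a4
  have hdis : ∀ C C' : Set V, Disjoint C C' → Disjoint (thick G p γ C) (thick G p γ C') := by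
    intro C C' hd
    rw [Set.disjoint_left] at hd ⊢
    have key1 : ∀ C C' : Set V, (∀ v ∈ C, v ∉ C') → ∀ v ∈ C, cx (p v) ∉ thick G p γ C' := by
      rintro C C' hd v hv (⟨v', hv', h⟩ | ⟨x, hx, y, hy, hxy, t, h⟩)
      · have := h1 (cx_inj h)
        rw [this] at hv
        exact hd _ hv hv'
      · rcases hpe x y hxy t v (cx_inj h).symm with rfl | rfl
        · exact hd _ hv hx
        · exact hd _ hv hy
    rintro z hz hz'
    rcases hz with ⟨v, hv, rfl⟩ | ⟨u, hu, v, hv, huv, t, rfl⟩
    · exact key1 C C' (fun v hv => hd hv) v hv hz'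
    · rcases hz' with ⟨w, hw, h⟩ | ⟨x, hx, y, hy, hxy, t', h⟩
      · refine key1 C' C (fun v hv hv' => hd hv' hv) w hw ?_
        rw [← h]
        exact Or.inr ⟨u, hu, v, hv, huv, t, rfl⟩
      · have he := cx_inj h
        have hne : s(u, v) ≠ s(x, y) := by
          intro he
          have : u ∈ s(x, y) := by rw [← he]; exact Sym2.mem_mk_left _ _
          rw [Sym2.mem_iff] at this
          rcases this with rfl | rfl
          · exact hd hu hx
          · exact hd hu hy
        have h4 := h3 u v x y huv hxy hne t t' he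
        rcases hend u v huv t h4 with h5 | h5
        · refine key1 C C' (fun v hv => hd hv) u hu ?_
          rw [← h5]
          exact Or.inr ⟨x, hx, y, hy, hxy, t', h⟩
        · refine key1 C C' (fun v hv => hd hv) v hv ?_
          rw [← h5]
          exact Or.inr ⟨x, hx, y, hy, hxy, t', h⟩
  have hjoin : ∀ C : Finset V, Conn G C → ∀ u ∈ C, ∀ v ∈ C,
      JoinedIn (thick G p γ (C : Set V)) (cx (p u)) (cx (p v)) := by
    intro C hC u hu v hv
    refine hC.induct (fun x => JoinedIn (thick G p γ (C : Set V)) (cx (p u)) (cx (p x)))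
      hu (JoinedIn.refl (Or.inl ⟨u, hu, rfl⟩)) ?_ v hv
    intro x hx y hy hxy hux
    refine hux.trans ?_
    obtain ⟨a1, a2, a3, a4, a5⟩ := h2 x y hxy
    have hc : Continuous (fun t => cx (γ x y t)) := continuous_cx.comp a1
    refine ⟨⟨⟨fun t => cx (γ x y t), hc⟩, ?_, ?_⟩, ?_⟩
    · change cx (γ x y 0) = _
      rw [a3]
    · change cx (γ x y 1) = _
      rw [a4]
    · intro t
      exact Or.inr ⟨x, hx, y, hy, hxy, t, rfl⟩
  intro C hC hdisC hadj
  have hroot : ∀ i, ∃ z, z ∈ C i := fun i => (hC i).1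
  choose root hroot using hroot
  refine Pool.Agent.Helper770.VanKampen.k5_joined (fun i => cx (p (root i)))
    (fun a b => thick G p γ ((C a ∪ C b : Finset V) : Set V)) ?_ ?_
  · intro a b hab
    exact hjoin (C a ∪ C b) (conn_union_adj (hC a) (hC b) (hadj a b hab.ne))
      (root a) (mem_union_left _ (hroot a)) (root b) (mem_union_right _ (hroot b))
  · intro a b c d hab hcd hac had hbc hbd
    apply hdis
    rw [disjoint_coe, disjoint_union_left, disjoint_union_right, disjoint_union_right]
    exact ⟨⟨hdisC a c hac, hdisC a d had⟩, ⟨hdisC b c hbc, hdisC b d hbd⟩⟩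

end Pool.Agent.U396.Draw
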